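import Pool.Agent.Work.MP_8d2cba_co_h18.Interface2
import Pool.Agent.Work.MP_8d2cba_co_h18.Basic

/-! MP_8d2cba_co, block INIT: start of the walk. -/

set_option autoImplicit false
set_option linter.unusedSectionVars false

namespace Pool.OM.h64

open Finset Pool.OM

section counts
variable {G : Type} [Group G] [Fintype G] [DecidableEq G]

theorem GenPos.mono {K K' k : ℕ} {γ : G} {Q : Finset (Cp G)} (h : GenPos K' k γ Q) (hK : K ≤ K') :
    GenPos K k γ Q where
  k3 := h.k3
  w1 := h.w1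
  w2 := h.w2
  w3 := h.w3
  r1 c hc c' hc' hne := (Nat.mul_le_mul_right _ hK).trans (h.r1 c hc c' hc' hne)
  r2 c hc c' hc' hne := (Nat.mul_le_mul_right _ hK).trans (h.r2 c hc c' hc' hne)
  i1 := h.i1
  i2 := h.i2
  i3 := h.i3
  i4 := h.i4
  i5 := h.i5

/-- choices whose first coordinate lies in a set -/
theorem card_coord (B : Finset G) (j : Fin 4) :
    (univ.filter fun ω : Fin 4 → G => ω j ∈ B).card = Fintype.card G ^ 3 * B.card := by
  have h1 : (univ.filter fun ω : Fin 4 → G => ω j ∈ B) =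
      Fintype.piFinset fun i => if i = j then B else univ := by
    ext ω
    simp only [mem_filter, mem_univ, true_and, Fintype.mem_piFinset]
    constructor
    · intro h i
      split_ifs with hi
      · rw [hi]
        exact h
      · exact mem_univ _
    · intro h
      have := h j
      rwa [if_pos rfl] at this
  rw [h1, Fintype.card_piFinset]
  have h2 : ∀ i, (if i = j then B else univ).card =
      if i = j then B.card else Fintype.card G := by
    intro i
    split_ifs <;> simp [Finset.card_univ]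
  simp only [h2]
  rw [Finset.prod_ite, Finset.prod_const, Finset.prod_const]
  have h3 : (univ.filter fun i : Fin 4 => i = j).card = 1 := by
    rw [Finset.filter_eq' univ j, if_pos (mem_univ _), card_singleton]
  have h4 : (univ.filter fun i : Fin 4 => ¬ i = j).card = 3 := by
    rw [Finset.filter_ne' univ j, card_erase_of_mem (mem_univ _), card_univ, Fintype.card_fin]
  rw [h3, h4, pow_one, mul_comm]

/-- choices with an exceptional pair of coordinates -/
theorem card_bad2 (M : ℕ) (p : G → G → G → Prop) [∀ x y z, Decidable (p x y z)]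
    (hp : ∀ x, M * (univ.filter fun z : G × G => p x z.1 z.2).card ≤ Fintype.card G ^ 2) :
    M * (univ.filter fun ω : Fin 4 → G => p (ω 0) (ω 2) (ω 3)).card ≤ Fintype.card G ^ 4 := by
  have h1 : (univ.filter fun ω : Fin 4 → G => p (ω 0) (ω 2) (ω 3)).card =
      ∑ q : G × G, ((univ.filter fun ω : Fin 4 → G => p (ω 0) (ω 2) (ω 3)).filter
        fun ω => (ω 0, ω 1) = q).card :=
    Finset.card_eq_sum_card_fiberwise (f := fun ω : Fin 4 → G => (ω 0, ω 1))
      (t := univ) fun _ _ => mem_univ _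
  have h2 : ∀ q : G × G, M * ((univ.filter fun ω : Fin 4 → G => p (ω 0) (ω 2) (ω 3)).filter
        fun ω => (ω 0, ω 1) = q).card ≤ Fintype.card G ^ 2 := by
    intro q
    refine (Nat.mul_le_mul_left _ ?_).trans (hp q.1)
    refine Finset.card_le_card_of_injOn (fun ω => (ω 2, ω 3)) ?_ ?_
    · intro ω hω
      simp only [coe_filter, mem_filter, mem_univ, true_and, Set.mem_ofPred_eq] at hω ⊢
      have h3 : ω 0 = q.1 := congrArg Prod.fst hω.2
      rw [← h3]
      exact hω.1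
    · intro ω hω ω' hω' h
      simp only [coe_filter, mem_filter, mem_univ, true_and, Set.mem_ofPred_eq] at hω hω'
      have h3 := hω.2.trans hω'.2.symm
      simp only [Prod.mk.injEq] at h3 h
      funext i
      fin_cases i
      · exact h3.1
      · exact h3.2
      · exact h.1
      · exact h.2
  rw [h1, Finset.mul_sum]
  calc ∑ q : G × G, M * ((univ.filter fun ω : Fin 4 → G => p (ω 0) (ω 2) (ω 3)).filter
        fun ω => (ω 0, ω 1) = q).card ≤ ∑ _q : G × G, Fintype.card G ^ 2 :=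
        Finset.sum_le_sum fun q _ => h2 q
    _ = Fintype.card G ^ 4 := by
        rw [Finset.sum_const, Finset.card_univ, Fintype.card_prod, smul_eq_mul]
        ring

/-- values of a uniform word in a set -/
theorem card_word (hR2 : Stmt_R2) {γ : G} (hγ : γ * γ = 1) {w : Wd}
    (hw : Wd.lin 4 (Wd.red w) = true) (ρ : ℕ → G) (U : Finset G) :
    Fintype.card G * (univ.filter fun ω : Fin 4 → G => ev γ (join 4 ω ρ) w ∈ U).card ≤
      U.card * Fintype.card G ^ 4 := by
  have h1 : (univ.filter fun ω : Fin 4 → G => ev γ (join 4 ω ρ) w ∈ U) ⊆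
      U.biUnion fun c => univ.filter fun ω : Fin 4 → G => ev γ (join 4 ω ρ) w = c := by
    intro ω hω
    rw [mem_filter] at hω
    exact mem_biUnion.2 ⟨_, hω.2, mem_filter.2 ⟨mem_univ _, rfl⟩⟩
  calc Fintype.card G * (univ.filter fun ω : Fin 4 → G => ev γ (join 4 ω ρ) w ∈ U).card
      ≤ Fintype.card G * ∑ c ∈ U, (univ.filter fun ω : Fin 4 → G =>
          ev γ (join 4 ω ρ) w = c).card :=
        Nat.mul_le_mul_left _ ((card_le_card h1).trans card_biUnion_le)
    _ = ∑ c ∈ U, Fintype.card G * (univ.filter fun ω : Fin 4 → G =>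
          ev γ (join 4 ω ρ) w = c).card := Finset.mul_sum _ _ _
    _ = ∑ _c ∈ U, Fintype.card G ^ 4 := by
        refine Finset.sum_congr rfl fun c _ => ?_
        exact hR2 G γ hγ 4 w hw ρ c
    _ = U.card * Fintype.card G ^ 4 := by rw [Finset.sum_const, smul_eq_mul]

/-- values of finitely many uniform words in a set -/
theorem card_words (hR2 : Stmt_R2) {γ : G} (hγ : γ * γ = 1) (L : List Wd)
    (hL : ∀ w ∈ L, Wd.lin 4 (Wd.red w) = true) (ρ : ℕ → G) (U : Finset G) :
    Fintype.card G * (univ.filter fun ω : Fin 4 → G =>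
      ∃ w ∈ L, ev γ (join 4 ω ρ) w ∈ U).card ≤ L.length * (U.card * Fintype.card G ^ 4) := by
  induction L with
  | nil => simp
  | cons w L ih =>
    have h1 : (univ.filter fun ω : Fin 4 → G => ∃ w' ∈ w :: L, ev γ (join 4 ω ρ) w' ∈ U) ⊆
        (univ.filter fun ω : Fin 4 → G => ev γ (join 4 ω ρ) w ∈ U) ∪
          (univ.filter fun ω : Fin 4 → G => ∃ w' ∈ L, ev γ (join 4 ω ρ) w' ∈ U) := by
      intro ω hω
      rw [mem_filter] at hω
      obtain ⟨w', hw', hu⟩ := hω.2
      rw [mem_union, mem_filter, mem_filter]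
      rcases List.mem_cons.1 hw' with rfl | hw'
      · exact Or.inl ⟨mem_univ _, hu⟩
      · exact Or.inr ⟨mem_univ _, w', hw', hu⟩
    have h2 := ih fun w' hw' => hL w' (List.mem_cons_of_mem _ hw')
    have h3 := card_word hR2 hγ (hL w List.mem_cons_self) ρ U
    calc _ ≤ Fintype.card G * ((univ.filter fun ω : Fin 4 → G =>
            ev γ (join 4 ω ρ) w ∈ U).card + (univ.filter fun ω : Fin 4 → G =>
              ∃ w' ∈ L, ev γ (join 4 ω ρ) w' ∈ U).card) :=
          Nat.mul_le_mul_left _ ((card_le_card h1).trans (card_union_le _ _))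
      _ ≤ U.card * Fintype.card G ^ 4 + L.length * (U.card * Fintype.card G ^ 4) := by
          rw [mul_add]
          exact add_le_add h3 h2
      _ = (w :: L).length * (U.card * Fintype.card G ^ 4) := by
          rw [List.length_cons]
          ring

end counts

section init
variable {G : Type} [Group G]

/-- the parameters of the initial system -/
def iniPar (e c1 cL : Cp G) : Fin 7 → G := ![e.s, e.r, e.g, c1.s, 1, c1.g, cL.r]

/-- the parameters as a function on `ℕ` -/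
def iniRho (e c1 cL : Cp G) (j : ℕ) : G := if h : j < 7 then iniPar e c1 cL ⟨j, h⟩ else 1

theorem ini_vw (γ : G) (e c1 cL : Cp G) (ω : Fin 4 → G) :
    Walk.initSys.vw.map (ev γ (join 4 ω (iniRho e c1 cL))) =
      [e.s * ω 0, e.s * ω 0 * ω 2, e.r * (γ * e.g⁻¹ * ω 0 * ω 2),
        e.r * (γ * e.g⁻¹ * ω 0 * ω 2) * ω 3, c1.s * c1.g * (ω 0 * ω 2 * ω 3)⁻¹,
        cL.r * ω 1] := by
  simp [Walk.initSys, Walk.vR, Walk.P1R, Walk.CW.t, Walk.X, Walk.γ, Walk.i, Wd.inv, ev, evL,
    join, iniRho, iniPar, mul_assoc]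

theorem ini_pw (γ : G) (e c1 cL : Cp G) (ω : Fin 4 → G) :
    Walk.initSys.pw.map (ev γ (join 4 ω (iniRho e c1 cL))) =
      [ω 0, ω 1, γ * (ω 2)⁻¹, ω 3, γ * e.g⁻¹ * ω 0 * ω 2, ω 0 * ω 2 * ω 3] := by
  simp [Walk.initSys, Walk.vR, Walk.P1R, Walk.CW.t, Walk.X, Walk.γ, Walk.i, Wd.inv, ev, evL,
    join, iniRho, iniPar, mul_assoc]

theorem le_prs (γ : G) (P : Multiset G) : P ≤ prs γ P := by
  induction P using Multiset.induction_on with
  | empty => simp
  | cons a P ih =>
    rw [prs_cons, ← Multiset.singleton_add]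
    refine add_le_add ?_ ih
    rw [pr, Multiset.insert_eq_cons, Multiset.singleton_le]
    exact Multiset.mem_cons_self _ _

theorem ini_ms (γ : G) (hγ : γ * γ = 1) (e : Cp G) (x z1 z2 : G) :
    MS (e.idx γ) {e.s * x, e.s * x * z1, e.r * (γ * e.g⁻¹ * x * z1),
      e.r * (γ * e.g⁻¹ * x * z1) * z2}
      {x, z1, (γ * e.g⁻¹ * x * z1)⁻¹ * γ, γ * e.g⁻¹ * x * z1, z2, (x * z1 * z2)⁻¹ * γ} := by
  have hγi : γ⁻¹ = γ := by
    rw [inv_eq_iff_mul_eq_one]
    exact hγ
  have h1 := (MS.three e.s e.t (e.s * x) (e.s * x * z1)).add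
    (MS.three e.r (e.t' γ) (e.r * (γ * e.g⁻¹ * x * z1)) (e.r * (γ * e.g⁻¹ * x * z1) * z2))
  have hI : ({(e.s, e.t, 3)} + {(e.r, e.t' γ, 3)} : Multiset (Idx G)) = e.idx γ := rfl
  rw [hI] at h1
  have c1 : e.s⁻¹ * (e.s * x) = x := by group
  have c2 : (e.s * x)⁻¹ * (e.s * x * z1) = z1 := by group
  have c3 : (e.s * x * z1)⁻¹ * e.t = (γ * e.g⁻¹ * x * z1)⁻¹ * γ := by
    rw [Cp.t]
    group
  have c4 : e.r⁻¹ * (e.r * (γ * e.g⁻¹ * x * z1)) = γ * e.g⁻¹ * x * z1 := by group
  have c5 : (e.r * (γ * e.g⁻¹ * x * z1))⁻¹ * (e.r * (γ * e.g⁻¹ * x * z1) * z2) = z2 := by group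
  have c6 : (e.r * (γ * e.g⁻¹ * x * z1) * z2)⁻¹ * e.t' γ = (x * z1 * z2)⁻¹ * γ := by
    rw [Cp.t', Cp.g']
    calc (e.r * (γ * e.g⁻¹ * x * z1) * z2)⁻¹ * (e.r * (γ * e.g⁻¹ * γ))
        = (x * z1 * z2)⁻¹ * γ := by group
      _ = _ := rfl
  rw [c1, c2, c3, c4, c5, c6] at h1
  exact h1

end init

section avail
variable {G : Type} [Group G] [Fintype G]

open Classical in
theorem avail_ini {γ : G} {K₁ : ℕ} {R P : Finset G}
    (hav : Avail γ K₁ R P (Walk.initSys.fam γ 4 7)) (e c1 cL : Cp G)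
    (h : Fintype.card G ^ 4 ≤ 2 * (univ.filter fun ω : Fin 4 → G =>
      CF γ (Walk.initSys.pw.map (ev γ (join 4 ω (iniRho e c1 cL))))
        (Walk.initSys.vw.map (ev γ (join 4 ω (iniRho e c1 cL))))).card) :
    Fintype.card G ^ 4 ≤ K₁ * (univ.filter fun ω : Fin 4 → G =>
      CF γ (Walk.initSys.pw.map (ev γ (join 4 ω (iniRho e c1 cL))))
        (Walk.initSys.vw.map (ev γ (join 4 ω (iniRho e c1 cL)))) ∧
      (∀ c ∈ Walk.initSys.pw.map (ev γ (join 4 ω (iniRho e c1 cL))), c ∈ P) ∧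
      ∀ v ∈ Walk.initSys.vw.map (ev γ (join 4 ω (iniRho e c1 cL))), v ∈ R).card := by
  have hc : Fintype.card (Fin 4 → G) = Fintype.card G ^ 4 := by simp
  rw [← hc] at h ⊢
  have h1 := hav (iniPar e c1 cL) h
  refine h1.trans (Nat.mul_le_mul_left _ (le_of_eq ?_))
  refine congrArg Finset.card ?_
  apply Finset.filter_congr_decidable

end avail

/-- INIT -/
theorem stmt_INIT (hR2 : Stmt_R2) (hR3 : Stmt_R3) (hSTB : Stmt_STB) : Stmt_INIT := by
  intro K₁ K
  obtain ⟨KS, hS⟩ := hSTB (4 * (K₁ + 1))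
  refine ⟨KS + 132 + 4 * (K₁ + 1) * (2 * K + 1) + 4 * (K₁ + 1) * 12, ?_⟩
  intro G _ _ _ k γ R P Q hγ hn hrt hP hAv hGP e c1 c2 c4 c5 nx cL he hc1 hc2 hc4 hc5 hnx hcL
    hnd U U' hU
  classical
  obtain ⟨n, hndef⟩ : ∃ n, n = Fintype.card G := ⟨_, rfl⟩
  have hn0 : 0 < n := by
    rw [hndef]
    exact Fintype.card_pos
  have hγi : γ⁻¹ = γ := by
    rw [inv_eq_iff_mul_eq_one]
    exact hγ
  -- collision free choices
  have hec1 : e ≠ c1 := by
    intro h
    rw [h] at hnd
    simp at hnd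
  have hobs : Walk.initSys.obls 4 = some [Ob.ne [(5, true), (7, true), (0, false), (6, false)],
      Ob.rt [(7, true), (0, false), (6, false), (8, true), (10, true)],
      Ob.rt [(0, false)], Ob.rt [(0, false)], Ob.rt [(0, true)], Ob.rt [(0, false)],
      Ob.rt [(0, true)], Ob.rt [(0, false)]] := by decide +kernel
  have hlen : Walk.initSys.colls.length = 66 := by decide +kernel
  have hcf := hR3 G γ hγ 4 Walk.initSys _ hobs 132 (iniRho e c1 cL) (by omega) (by
    have hg : 132 * rt γ ≤ Fintype.card G :=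
      (Nat.mul_le_mul_right _ (by omega)).trans hrt
    intro o ho
    simp only [List.mem_cons, List.not_mem_nil, or_false] at ho
    rcases ho with rfl | rfl | rfl | rfl | rfl | rfl | rfl | rfl
    · show ev γ _ _ ≠ 1
      have h1 := hGP.w1 e he
      intro h2
      apply h1
      simp only [ev, evL, join, iniRho, iniPar, List.map_cons, List.map_nil, List.prod_cons,
        List.prod_nil] at h2
      norm_num at h2
      have h3 : e.s = e.r * γ⁻¹ * e.g⁻¹ := by
        calc e.s = (e.s * (e.g * (γ * e.r⁻¹))) * e.r * γ⁻¹ * e.g⁻¹ := by group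
          _ = e.r * γ⁻¹ * e.g⁻¹ := by rw [h2, one_mul]
      rw [hγi] at h3
      exact h3.symm
    · show 132 * rt (ev γ _ _) ≤ _
      have h1 := hGP.r2 e he c1 hc1 hec1
      rw [← rt_inv] at h1
      have h2 : ev γ (join 4 (fun _ => 1) (iniRho e c1 cL))
          [(7, true), (0, false), (6, false), (8, true), (10, true)] =
          (c1.g⁻¹ * c1.s⁻¹ * e.r * γ * e.g⁻¹)⁻¹ := by
        simp [ev, evL, join, iniRho, iniPar, mul_assoc, hγi]
      rw [h2]
      exact (Nat.mul_le_mul_right _ (by omega)).trans h1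
    all_goals
      show 132 * rt (ev γ _ _) ≤ _
      simpa [ev, evL] using hg)
  rw [hlen] at hcf
  -- at least half of the choices are collision free
  obtain ⟨cf, hcfdef⟩ : ∃ cf : (Fin 4 → G) → Prop, cf = fun ω =>
      CF γ (Walk.initSys.pw.map (ev γ (join 4 ω (iniRho e c1 cL))))
        (Walk.initSys.vw.map (ev γ (join 4 ω (iniRho e c1 cL)))) := ⟨_, rfl⟩
  have hhalf : Fintype.card G ^ 4 ≤ 2 * (univ.filter fun ω : Fin 4 → G => cf ω).card := by
    have h1 := Finset.card_filter_add_card_filter_not (s := (univ : Finset (Fin 4 → G)))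
      (fun ω : Fin 4 → G => cf ω)
    rw [Finset.card_univ, Fintype.card_fun, Fintype.card_fin] at h1
    have h2 : 132 * (univ.filter fun ω : Fin 4 → G => ¬ cf ω).card ≤
        66 * Fintype.card G ^ 4 := by
      subst hcfdef
      convert hcf using 4
      exact Iff.rfl
    omega
  obtain ⟨A, hAdef⟩ : ∃ A : Finset (Fin 4 → G), A = univ.filter fun ω : Fin 4 → G =>
      cf ω ∧ (∀ c ∈ Walk.initSys.pw.map (ev γ (join 4 ω (iniRho e c1 cL))), c ∈ P) ∧
      ∀ v ∈ Walk.initSys.vw.map (ev γ (join 4 ω (iniRho e c1 cL))), v ∈ R := ⟨_, rfl⟩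
  have hF : Walk.initSys.fam γ 4 7 ∈ covFams γ := by simp [covFams]
  have hA1 : Fintype.card G ^ 4 ≤ K₁ * A.card := by
    subst hcfdef
    rw [hAdef]
    convert avail_ini (hAv _ hF) e c1 cL (by convert hhalf)
  -- the exceptional choices
  obtain ⟨B1, hB1⟩ : ∃ B : Finset (Fin 4 → G), B = univ.filter fun ω : Fin 4 → G =>
      ∃ w ∈ Walk.initSys.vw, ev γ (join 4 ω (iniRho e c1 cL)) w ∈ U := ⟨_, rfl⟩
  obtain ⟨B2, hB2⟩ : ∃ B : Finset (Fin 4 → G), B = univ.filter fun ω : Fin 4 → G =>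
      ∃ w ∈ Walk.initSys.pw, ev γ (join 4 ω (iniRho e c1 cL)) w ∈ U' := ⟨_, rfl⟩
  obtain ⟨B3, hB3⟩ : ∃ B : Finset (Fin 4 → G), B = univ.filter fun ω : Fin 4 → G =>
      ¬ (Bt.burn c1 c2 c4 c5).Good γ nx (ω 0) (ω 2) (ω 3) := ⟨_, rfl⟩
  obtain ⟨B4, hB4⟩ : ∃ B : Finset (Fin 4 → G), B = univ.filter fun ω : Fin 4 → G =>
      ω 1 ∈ univ.filter fun X : G => ¬ FinAd K γ cL (X⁻¹ * γ) := ⟨_, rfl⟩
  have hunif : ∀ w ∈ Walk.initSys.vw, Wd.lin 4 (Wd.red w) = true := by decide +kernel
  have hunif' : ∀ w ∈ Walk.initSys.pw, Wd.lin 4 (Wd.red w) = true := by decide +kernel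
  have hlv : Walk.initSys.vw.length = 6 := by decide +kernel
  have hlp : Walk.initSys.pw.length = 6 := by decide +kernel
  have k1 : Fintype.card G * B1.card ≤ 6 * (U.card * Fintype.card G ^ 4) := by
    have := card_words hR2 hγ _ hunif (iniRho e c1 cL) U
    rw [hlv, ← hB1] at this
    exact this
  have k2 : Fintype.card G * B2.card ≤ 6 * (U'.card * Fintype.card G ^ 4) := by
    have := card_words hR2 hγ _ hunif' (iniRho e c1 cL) U'
    rw [hlp, ← hB2] at this
    exact this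
  have k3 : 4 * (K₁ + 1) * B3.card ≤ Fintype.card G ^ 4 := by
    rw [hB3]
    refine card_bad2 (4 * (K₁ + 1))
      (fun x y z => ¬ (Bt.burn c1 c2 c4 c5).Good γ nx x y z) fun x => ?_
    refine hS G k γ Q hγ (by omega) ((Nat.mul_le_mul_right _ (by omega)).trans hrt)
      (GenPos.mono hGP (by omega)) (Bt.burn c1 c2 c4 c5) nx trivial ?_ ?_ x _ ?_
    · exact (List.nodup_cons.1 hnd).2
    · intro c hc
      simp only [Bt.cps, List.cons_append, List.nil_append, List.mem_cons, List.not_mem_nil,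
        or_false] at hc
      rcases hc with rfl | rfl | rfl | rfl | rfl <;> assumption
    · intro z hz
      exact (mem_filter.1 hz).2
  have k4 : B4.card ≤ Fintype.card G ^ 3 * (2 * K + 1) := by
    rw [hB4, card_coord]
    refine Nat.mul_le_mul_left _ ?_
    have h1 : (univ.filter fun X : G => ¬ FinAd K γ cL (X⁻¹ * γ)) ⊆
        {γ * cL.g⁻¹} ∪ ((univ.filter fun X : G =>
          Fintype.card G < K * rt (X⁻¹ * γ * cL.g⁻¹ * γ)) ∪ (univ.filter fun X : G =>
          Fintype.card G < K * cj (γ * cL.g * (X⁻¹ * γ)⁻¹) γ)) := by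
      intro X hX
      rw [mem_filter] at hX
      by_contra hno
      rw [mem_union, mem_union, mem_singleton, mem_filter, mem_filter] at hno
      push Not at hno
      apply hX.2
      refine ⟨?_, hno.2.1 (mem_univ _), hno.2.2 (mem_univ _)⟩
      intro h
      apply hno.1
      rw [h]
      group
    have h2 : (univ.filter fun X : G =>
        Fintype.card G < K * rt (X⁻¹ * γ * cL.g⁻¹ * γ)).card ≤ K := by
      refine le_trans ?_ (card_badrt (G := G) K)
      refine card_le_card_of_injOn (fun X => X⁻¹ * γ * cL.g⁻¹ * γ) ?_ ?_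
      · intro X hX
        simp only [coe_filter, mem_univ, true_and, Set.mem_ofPred_eq] at hX ⊢
        exact hX
      · intro X _ Y _ h
        simpa using h
    have h3 : (univ.filter fun X : G =>
        Fintype.card G < K * cj (γ * cL.g * (X⁻¹ * γ)⁻¹) γ).card ≤ K := by
      refine le_trans ?_ (card_badcj (G := G) K γ)
      refine card_le_card_of_injOn (fun X => γ * cL.g * (X⁻¹ * γ)⁻¹) ?_ ?_
      · intro X hX
        simp only [coe_filter, mem_univ, true_and, Set.mem_ofPred_eq] at hX ⊢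
        exact hX
      · intro X _ Y _ h
        simpa using h
    calc _ ≤ _ := card_le_card h1
      _ ≤ 1 + (K + K) := (card_union_le _ _).trans (add_le_add (card_singleton _).le
          ((card_union_le _ _).trans (add_le_add h2 h3)))
      _ = 2 * K + 1 := by ring
  -- a good choice
  obtain ⟨ω, hωA, hω1, hω2, hω3, hω4⟩ : ∃ ω, ω ∈ A ∧ ω ∉ B1 ∧ ω ∉ B2 ∧ ω ∉ B3 ∧ ω ∉ B4 := by
    by_contra hno
    push Not at hno
    have hsub : A ⊆ B1 ∪ (B2 ∪ (B3 ∪ B4)) := by
      intro ω hω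
      rw [mem_union, mem_union, mem_union]
      by_contra hcon
      push Not at hcon
      exact hcon.2.2.2 (hno ω hω hcon.1 hcon.2.1 hcon.2.2.1)
    have hc := card_le_card hsub
    have hc' : A.card ≤ B1.card + (B2.card + (B3.card + B4.card)) :=
      hc.trans ((card_union_le _ _).trans (add_le_add le_rfl ((card_union_le _ _).trans
        (add_le_add le_rfl (card_union_le _ _)))))
    rw [← hndef] at k1 k2 k3 k4 hA1 hn hU
    have hN : 0 < n ^ 4 := pow_pos hn0 4
    have e1 : 2 * (4 * (K₁ + 1)) * (B1.card + B2.card) ≤ n ^ 4 := by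
      have h1 : n * (B1.card + B2.card) ≤ 6 * ((U.card + U'.card) * n ^ 4) := by
        calc n * (B1.card + B2.card) = n * B1.card + n * B2.card := by ring
          _ ≤ 6 * (U.card * n ^ 4) + 6 * (U'.card * n ^ 4) := add_le_add k1 k2
          _ = _ := by ring
      have h2 : (4 * (K₁ + 1) * 12) * (U.card + U'.card) ≤ n :=
        (Nat.mul_le_mul_right _ (by omega)).trans hU
      have h3 : n * (2 * (4 * (K₁ + 1)) * (B1.card + B2.card)) ≤ n * n ^ 4 := by
        calc n * (2 * (4 * (K₁ + 1)) * (B1.card + B2.card))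
            = 2 * (4 * (K₁ + 1)) * (n * (B1.card + B2.card)) := by ring
          _ ≤ 2 * (4 * (K₁ + 1)) * (6 * ((U.card + U'.card) * n ^ 4)) :=
              Nat.mul_le_mul_left _ h1
          _ = (4 * (K₁ + 1) * 12) * (U.card + U'.card) * n ^ 4 := by ring
          _ ≤ n * n ^ 4 := Nat.mul_le_mul_right _ h2
      exact Nat.le_of_mul_le_mul_left h3 hn0
    have e4 : 4 * (K₁ + 1) * B4.card ≤ n ^ 4 := by
      calc 4 * (K₁ + 1) * B4.card ≤ 4 * (K₁ + 1) * (n ^ 3 * (2 * K + 1)) :=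
            Nat.mul_le_mul_left _ k4
        _ = (4 * (K₁ + 1) * (2 * K + 1)) * n ^ 3 := by ring
        _ ≤ n * n ^ 3 := Nat.mul_le_mul_right _ (by omega)
        _ = n ^ 4 := by ring
    have e5 : 2 * (4 * (K₁ + 1)) * A.card ≤ 5 * n ^ 4 := by
      calc 2 * (4 * (K₁ + 1)) * A.card
          ≤ 2 * (4 * (K₁ + 1)) * (B1.card + (B2.card + (B3.card + B4.card))) :=
            Nat.mul_le_mul_left _ hc'
        _ = 2 * (4 * (K₁ + 1)) * (B1.card + B2.card) + 2 * (4 * (K₁ + 1) * B3.card) +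
            2 * (4 * (K₁ + 1) * B4.card) := by ring
        _ ≤ n ^ 4 + 2 * n ^ 4 + 2 * n ^ 4 :=
            add_le_add (add_le_add e1 (Nat.mul_le_mul_left _ k3)) (Nat.mul_le_mul_left _ e4)
        _ = 5 * n ^ 4 := by ring
    nlinarith
  have hmem := (mem_filter.1 (hAdef ▸ hωA)).2
  rw [hcfdef] at hmem
  obtain ⟨⟨hnp, hnv⟩, hpP, hvR⟩ := hmem
  have hvU : ∀ v ∈ Walk.initSys.vw.map (ev γ (join 4 ω (iniRho e c1 cL))), v ∉ U := by
    intro v hv hvu
    obtain ⟨w, hw, rfl⟩ := List.mem_map.1 hv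
    exact hω1 (by rw [hB1, mem_filter]; exact ⟨mem_univ _, w, hw, hvu⟩)
  have hpU : ∀ v ∈ Walk.initSys.pw.map (ev γ (join 4 ω (iniRho e c1 cL))), v ∉ U' := by
    intro v hv hvu
    obtain ⟨w, hw, rfl⟩ := List.mem_map.1 hv
    exact hω2 (by rw [hB2, mem_filter]; exact ⟨mem_univ _, w, hw, hvu⟩)
  have hgood : (Bt.burn c1 c2 c4 c5).Good γ nx (ω 0) (ω 2) (ω 3) := by
    by_contra h
    exact hω3 (by rw [hB3, mem_filter]; exact ⟨mem_univ _, h⟩)
  have hfin : FinAd K γ cL ((ω 1)⁻¹ * γ) := by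
    by_contra h
    exact hω4 (by rw [hB4, mem_filter, mem_filter]; exact ⟨mem_univ _, mem_univ _, h⟩)
  rw [ini_vw] at hvU hvR hnv
  rw [ini_pw] at hpU hpP hnp
  refine ⟨ω 0, ω 1, ω 2, ω 3, _, _, ⟨(_ : List G), hnv⟩, ⟨(_ : List G),
    Multiset.nodup_of_le (le_prs γ _) hnp⟩, hpP _ (by simp), hpP _ (by simp), ?_, ?_, ?_,
    ini_ms γ hγ e (ω 0) (ω 2) (ω 3), ?_, hgood, hfin⟩
  · intro v hv
    rw [mem_sdiff]
    exact ⟨hvR v hv, hvU v hv⟩
  · intro v hv
    rw [mem_sdiff]
    exact ⟨hpP v hv, hpU v hv⟩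
  · rfl
  · have e1 : (γ * (ω 2)⁻¹)⁻¹ * γ = ω 2 := by group
    show _ = prs γ (([ω 0, ω 1, γ * (ω 2)⁻¹, ω 3, γ * e.g⁻¹ * ω 0 * ω 2,
      ω 0 * ω 2 * ω 3] : List G) : Multiset G)
    simp only [← Multiset.cons_coe, Multiset.coe_nil, prs_cons, prs_zero, pr, e1]
    simp only [Multiset.insert_eq_cons, ← Multiset.singleton_add]
    abel

end Pool.OM.h64
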