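import Pool.Agent.Work.MP_8d2cba_co_h18.Interface2
import Pool.Agent.Work.MP_8d2cba_co_h18.Basic
import Pool.Agent.Work.MP_8d2cba_co_h64.INIT
import Pool.Agent.Work.MP_8d2cba_co_helper76.EXEC

/-! MP_8d2cba_co, block LET: choice of the letters. -/

set_option autoImplicit false
set_option linter.unusedSectionVars false

namespace Pool.OM.h64

open Finset Pool.OM

section let1
variable {G : Type} [Group G] [Fintype G] [DecidableEq G]

/-- conditions on the product of a feed -/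
structure GPr (K : ℕ) (γ g : G) : Prop where
  ne : g ≠ 1
  a3 : K * rt (g * γ) ≤ Fintype.card G
  a4 : K * rt (g⁻¹ * γ) ≤ Fintype.card G

theorem GPr.inv {K : ℕ} {γ g : G} (h : GPr K γ g) : GPr K γ g⁻¹ :=
  ⟨inv_ne_one.2 h.ne, h.a4, by rw [inv_inv]; exact h.a3⟩

theorem GPr.feed {K : ℕ} {γ d1 d2 : G} (h1 : NBad K γ d1) (h2 : NBad K γ d2)
    (h : GPr K γ (d1 * d2)) : FeedPre K γ d1 d2 :=
  ⟨h1, h2, h.ne, h.a3, h.a4⟩

theorem nbad_mono {K K' : ℕ} {γ d : G} (h : NBad K' γ d) (hK : K ≤ K') : NBad K γ d :=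
  ⟨h.ne, (Nat.mul_le_mul_right _ hK).trans h.rt, (Nat.mul_le_mul_right _ hK).trans h.cj⟩

/-- the products which are not good -/
noncomputable def badP (K : ℕ) (γ : G) : Finset G := by
  classical exact univ.filter fun g => ¬ GPr K γ g

theorem mem_badP {K : ℕ} {γ g : G} : g ∈ badP K γ ↔ ¬ GPr K γ g := by
  classical
  unfold badP
  simp

theorem card_badP (K : ℕ) (γ : G) : (badP K γ).card ≤ 2 * K + 1 := by
  have hsub : badP K γ ⊆ {1} ∪ ((univ.filter fun c : G => Fintype.card G < K * rt c).image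
      (fun c => c * γ⁻¹) ∪ (univ.filter fun c : G => Fintype.card G < K * rt c).image
      (fun c => (c * γ⁻¹)⁻¹)) := by
    intro g hg
    rw [mem_badP] at hg
    by_contra hcon
    simp only [mem_union, mem_singleton, mem_image, mem_filter, mem_univ, true_and, not_or,
      not_exists, not_and] at hcon
    obtain ⟨n1, n2, n3⟩ := hcon
    refine hg ⟨n1, ?_, ?_⟩
    · by_contra hlt
      exact n2 (g * γ) (not_le.1 hlt) (by group)
    · by_contra hlt
      exact n3 (g⁻¹ * γ) (not_le.1 hlt) (by group)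
  refine (card_le_card hsub).trans ?_
  refine (card_union_le _ _).trans ?_
  have h1 := card_union_le ((univ.filter fun c : G => Fintype.card G < K * rt c).image
      (fun c => c * γ⁻¹)) ((univ.filter fun c : G => Fintype.card G < K * rt c).image
      (fun c => (c * γ⁻¹)⁻¹))
  have h2 : ((univ.filter fun c : G => Fintype.card G < K * rt c).image
      (fun c => c * γ⁻¹)).card ≤ K := card_image_le.trans (card_badrt K)
  have h3 : ((univ.filter fun c : G => Fintype.card G < K * rt c).image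
      (fun c => (c * γ⁻¹)⁻¹)).card ≤ K := card_image_le.trans (card_badrt K)
  rw [card_singleton]
  omega

/-- a set of feeds with letters `L` and debts `D`, of product `h` -/
structure Cfg (K : ℕ) (γ : G) (P U : Finset G) (fs : List (G × G)) (L : Finset G)
    (D : Multiset G) (h : G) : Prop where
  sub : L ⊆ P \ U
  fd : ∀ q ∈ fs, FeedPre K γ q.1 q.2
  sum : (fs.map fun q => ({q.1, q.2} : Multiset G)).sum = D + prs γ L.val
  prod : (fs.map fun q => q.1 * q.2).prod = h

theorem Cfg.nil (K : ℕ) (γ : G) (P U : Finset G) : Cfg K γ P U [] ∅ 0 1 :=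
  ⟨empty_subset _, by simp, by simp, by simp⟩

theorem Cfg.append {K : ℕ} {γ : G} {P U : Finset G} {fs fs' : List (G × G)} {L L' : Finset G}
    {D D' : Multiset G} {h h' : G} (c : Cfg K γ P U fs L D h)
    (c' : Cfg K γ P (U ∪ L) fs' L' D' h') :
    Cfg K γ P U (fs ++ fs') (L ∪ L') (D + D') (h * h') ∧ (L ∪ L').card = L.card + L'.card := by
  have hd : Disjoint L L' := by
    rw [Finset.disjoint_left]
    intro x hx hx'
    exact (mem_sdiff.1 (c'.sub hx')).2 (mem_union_right _ hx)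
  have hv : (L ∪ L').val = L.val + L'.val := by
    rw [← disjUnion_eq_union L L' hd, disjUnion_val]
  refine ⟨⟨?_, ?_, ?_, ?_⟩, card_union_of_disjoint hd⟩
  · intro x hx
    rcases mem_union.1 hx with h | h
    · exact c.sub h
    · have := mem_sdiff.1 (c'.sub h)
      exact mem_sdiff.2 ⟨this.1, fun hu => this.2 (mem_union_left _ hu)⟩
  · intro q hq
    rcases List.mem_append.1 hq with h | h
    · exact c.fd q h
    · exact c'.fd q h
  · rw [List.map_append, List.sum_append, c.sum, c'.sum, hv, prs_add]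
    abel
  · rw [List.map_append, List.prod_append, c.prod, c'.prod]

/-- one letter between two colours -/
theorem exists_letter {K : ℕ} {γ : G} (P U : Finset G) (hP : 4 * K + 2 + U.card < P.card)
    (s e : G) : ∃ a ∈ P \ U, GPr K γ (s * a) ∧ GPr K γ (a⁻¹ * γ * e) := by
  by_contra hno
  push Not at hno
  have hsub : P \ U ⊆ (badP K γ).image (fun g => s⁻¹ * g) ∪
      (badP K γ).image (fun g => γ * e * g⁻¹) := by
    intro a ha
    rw [mem_union, mem_image, mem_image]
    by_cases h1 : GPr K γ (s * a)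
    · refine Or.inr ⟨a⁻¹ * γ * e, ?_, by group⟩
      rw [mem_badP]
      exact hno a ha h1
    · exact Or.inl ⟨s * a, mem_badP.2 h1, by group⟩
  have h1 := card_le_card hsub
  have h2 := card_union_le ((badP K γ).image (fun g => s⁻¹ * g))
    ((badP K γ).image (fun g => γ * e * g⁻¹))
  have h3 : ((badP K γ).image (fun g => s⁻¹ * g)).card ≤ 2 * K + 1 :=
    card_image_le.trans (card_badP K γ)
  have h4 : ((badP K γ).image (fun g => γ * e * g⁻¹)).card ≤ 2 * K + 1 :=
    card_image_le.trans (card_badP K γ)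
  have h5 := Finset.le_card_sdiff U P
  omega

/-- a chain of letters between two colours -/
theorem cfg_chain {K : ℕ} {γ : G} {P : Finset G}
    (hPb : ∀ c ∈ P, NBad K γ c ∧ NBad K γ (c⁻¹ * γ)) (E : ℕ) :
    ∀ (U : Finset G) (s e : G), NBad K γ s → NBad K γ e →
      4 * K + 2 + (E + U.card) < P.card →
      ∃ (fs : List (G × G)) (L : Finset G), Cfg K γ P U fs L {s, e} (s * γ ^ (E + 1) * e) ∧
        fs.length = E + 2 ∧ L.card = E + 1 := by
  induction E with
  | zero =>
    intro U s e hs he hc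
    obtain ⟨a, ha, h1, h2⟩ := exists_letter P U (K := K) (γ := γ) (by omega) s e
    have haP := (mem_sdiff.1 ha).1
    refine ⟨[(s, a), (a⁻¹ * γ, e)], {a}, ⟨?_, ?_, ?_, ?_⟩, rfl, by simp⟩
    · exact singleton_subset_iff.2 ha
    · intro q hq
      simp only [List.mem_cons, List.not_mem_nil, or_false] at hq
      rcases hq with rfl | rfl
      · exact GPr.feed hs (hPb a haP).1 h1
      · exact GPr.feed (hPb a haP).2 he h2
    · simp only [List.map_cons, List.map_nil, List.sum_cons, List.sum_nil, add_zero,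
        singleton_val]
      simp only [prs, pr, Multiset.singleton_bind]
      simp only [Multiset.insert_eq_cons, ← Multiset.singleton_add]
      abel
    · simp [mul_assoc]
  | succ E ih =>
    intro U s e hs he hc
    obtain ⟨a, ha, h1, -⟩ := exists_letter P U (K := K) (γ := γ) (by omega) s e
    have haP := (mem_sdiff.1 ha).1
    have haU := (mem_sdiff.1 ha).2
    obtain ⟨fs, L, hC, hl, hL⟩ := ih (insert a U) (a⁻¹ * γ) e (hPb a haP).2 he (by
      have := card_insert_le a U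
      omega)
    have haL : a ∉ L := fun h => (mem_sdiff.1 (hC.sub h)).2 (mem_insert_self _ _)
    refine ⟨(s, a) :: fs, insert a L, ⟨?_, ?_, ?_, ?_⟩, by simp [hl], by
      rw [card_insert_of_notMem haL, hL]⟩
    · intro x hx
      rcases mem_insert.1 hx with rfl | hx
      · exact ha
      · have := mem_sdiff.1 (hC.sub hx)
        exact mem_sdiff.2 ⟨this.1, fun hu => this.2 (mem_insert_of_mem hu)⟩
    · intro q hq
      rcases List.mem_cons.1 hq with rfl | hq
      · exact GPr.feed hs (hPb a haP).1 h1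
      · exact hC.fd q hq
    · rw [List.map_cons, List.sum_cons, hC.sum, insert_val_of_notMem haL, prs_cons]
      simp only [pr, Multiset.insert_eq_cons, ← Multiset.singleton_add]
      abel
    · rw [List.map_cons, List.prod_cons, hC.prod]
      show s * a * (a⁻¹ * γ * γ ^ (E + 1) * e) = s * γ ^ (E + 1 + 1) * e
      rw [pow_succ' γ (E + 1)]
      group

/-- all debts -/
theorem cfg_debts {K : ℕ} {γ : G} {P : Finset G}
    (hPb : ∀ c ∈ P, NBad K γ c ∧ NBad K γ (c⁻¹ * γ)) (l : List (G × G)) :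
    ∀ (U : Finset G), (∀ q ∈ l, NBad K γ q.1 ∧ NBad K γ q.2) →
      4 * K + 2 + (l.length + U.card) < P.card →
      ∃ (fs : List (G × G)) (L : Finset G),
        Cfg K γ P U fs L (l.map fun q => ({q.1, q.2} : Multiset G)).sum
          (l.map fun q => q.1 * γ * q.2).prod ∧
        fs.length = 2 * l.length ∧ L.card = l.length := by
  induction l with
  | nil =>
    intro U _ _
    exact ⟨[], ∅, Cfg.nil K γ P U, rfl, rfl⟩
  | cons q l ih =>
    intro U hq hc
    rw [List.length_cons] at hc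
    obtain ⟨fs, L, hC, hl, hL⟩ := cfg_chain hPb 0 U q.1 q.2 (hq q List.mem_cons_self).1
      (hq q List.mem_cons_self).2 (by omega)
    have hUL : (U ∪ L).card ≤ U.card + 1 := (card_union_le _ _).trans (by omega)
    obtain ⟨fs', L', hC', hl', hL'⟩ := ih (U ∪ L)
      (fun q' hq' => hq q' (List.mem_cons_of_mem _ hq')) (by omega)
    obtain ⟨h1, h2⟩ := hC.append hC'
    refine ⟨fs ++ fs', L ∪ L', ?_, ?_, ?_⟩
    · rw [List.map_cons, List.sum_cons, List.map_cons, List.prod_cons]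
      simpa using h1
    · rw [List.length_append, hl, hl', List.length_cons]
      ring
    · rw [h2, hL, hL', List.length_cons]
      ring

end let1

section let2
variable {G : Type} [Group G] [Fintype G] [DecidableEq G]

theorem let_half {γ : G} (hγ : γ * γ = 1) (hn : 44 ≤ Fintype.card G)
    (hrt : 44 * rt γ ≤ Fintype.card G) (X : G) (A : Finset (Fin 3 → G))
    (hA : ∀ ω, ω ∈ A ↔ CF γ (Walk.letSys.pw.map (ev γ (join 3 ω (parL [X]))))
        (Walk.letSys.vw.map (ev γ (join 3 ω (parL [X]))))) :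
    Fintype.card G ^ 3 ≤ 2 * A.card := by
  classical
  have hγi : γ⁻¹ = γ := inv_eq_of_mul_eq_one_left hγ
  have h := h76.stmt_R3 G γ hγ 3 Walk.letSys [Ob.rt [(0, true)], Ob.rt [(0, false)],
    Ob.rt [(0, true)], Ob.rt [(0, false)]] (by decide +kernel) 44 (parL [X]) hn (by
      intro o ho
      simp only [List.mem_cons, List.not_mem_nil, or_false] at ho
      rcases ho with rfl | rfl | rfl | rfl <;>
      · show 44 * rt (ev γ _ _) ≤ _
        simpa [ev, evL] using hrt)
  have hcol : Walk.letSys.colls.length = 22 := by decide +kernel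
  rw [hcol] at h
  have h1 : (univ.filter fun ω : Fin 3 → G => ω ∉ A).card =
      (univ.filter fun ω : Fin 3 → G => ¬ (
      (prs γ (Walk.letSys.pw.map (ev γ (join 3 ω (parL [X]))) : Multiset G)).Nodup ∧
      (Walk.letSys.vw.map (ev γ (join 3 ω (parL [X])))).Nodup)).card := by
    congr 1
    ext ω
    rw [mem_filter, mem_filter, hA]
    exact Iff.rfl
  have h2 := Finset.card_filter_add_card_filter_not (s := (univ : Finset (Fin 3 → G)))
      (fun ω : Fin 3 → G => ω ∈ A)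
  have h3 : (univ.filter fun ω : Fin 3 → G => ω ∈ A) = A := by
    ext ω
    simp
  rw [h3, Finset.card_univ, Fintype.card_fun, Fintype.card_fin, h1] at h2
  omega

/-- four letters with given product -/
theorem pick4 {K K₁ : ℕ} {γ : G} (hγ : γ * γ = 1) (hn : 44 ≤ Fintype.card G)
    (hrt : 44 * rt γ ≤ Fintype.card G) {R P : Finset G}
    (hav : Avail γ K₁ R P (Walk.letSys.fam γ 3 1)) (X : G) (U : Finset G)
    (hU : 160 * (K₁ + 1) * U.card ≤ Fintype.card G)
    (hn2 : 8 * (K₁ + 1) * (2 * K + 1) ≤ Fintype.card G) :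
    ∃ a1 a2 a3 : G, GPr K γ (a1 * a2) ∧ GPr K γ (a3 * ((a1 * a2 * a3)⁻¹ * X)) ∧
      (prs γ ({γ * a1⁻¹, a2, γ * a3⁻¹, (a1 * a2 * a3)⁻¹ * X} : Multiset G)).Nodup ∧
      ∀ c ∈ [γ * a1⁻¹, a2, γ * a3⁻¹, (a1 * a2 * a3)⁻¹ * X], c ∈ P ∧ c ∉ U := by
  classical
  obtain ⟨BB, hBB⟩ : ∃ B : Finset G, B = badP K γ ∪ (badP K γ).image fun g => X * g⁻¹ :=
    ⟨_, rfl⟩
  have hBBc : BB.card ≤ 2 * (2 * K + 1) := by
    rw [hBB]
    refine (card_union_le _ _).trans ?_
    have h1 := card_badP K γ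
    have h2 : ((badP K γ).image fun g => X * g⁻¹).card ≤ (badP K γ).card := card_image_le
    omega
  obtain ⟨B, hB⟩ : ∃ B : Finset (Fin 3 → G), B = univ.filter fun ω : Fin 3 → G =>
      ω 0 * ω 1 ∈ BB := ⟨_, rfl⟩
  have hBc : Fintype.card G * B.card ≤ BB.card * Fintype.card G ^ 3 := by
    have h := h76.x_card_word hγ (f := 3) (w := [(1, true), (2, true)]) (by decide +kernel)
      (parL [X]) BB
    rw [hB]
    refine le_trans (Nat.mul_le_mul_left _ (le_of_eq ?_)) h
    congr 1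
    refine Finset.filter_congr fun ω _ => ?_
    have e : ev γ (join 3 ω (parL [X])) [(1, true), (2, true)] = ω 0 * ω 1 := by
      simp [ev, evL, join]
    rw [e]
  have hn0 : 0 < Fintype.card G := Fintype.card_pos
  have hB4 : 4 * (K₁ + 1) * B.card ≤ Fintype.card G ^ 3 := by
    refine Nat.le_of_mul_le_mul_left ?_ hn0
    calc Fintype.card G * (4 * (K₁ + 1) * B.card)
        = 4 * (K₁ + 1) * (Fintype.card G * B.card) := by ring
      _ ≤ 4 * (K₁ + 1) * (BB.card * Fintype.card G ^ 3) := Nat.mul_le_mul_left _ hBc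
      _ ≤ 4 * (K₁ + 1) * (2 * (2 * K + 1) * Fintype.card G ^ 3) :=
          Nat.mul_le_mul_left _ (Nat.mul_le_mul_right _ hBBc)
      _ = 8 * (K₁ + 1) * (2 * K + 1) * Fintype.card G ^ 3 := by ring
      _ ≤ Fintype.card G * Fintype.card G ^ 3 := Nat.mul_le_mul_right _ hn2
  obtain ⟨ω, hωB, hcf, hp, -⟩ := h76.x_pick hγ hav [X] (by simp)
    (let_half hγ hn hrt X) (by decide +kernel) (by decide +kernel) (by decide +kernel)
    (by decide +kernel) ∅ U (by simpa using hU) B hB4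
  have e1 : Walk.letSys.pw.map (ev γ (join 3 ω (parL [X]))) =
      [γ * (ω 0)⁻¹, ω 1, γ * (ω 2)⁻¹, (ω 0 * ω 1 * ω 2)⁻¹ * X] := by
    simp [Walk.letSys, Walk.X, Walk.i, Walk.γ, Wd.inv, ev, evL, join, parL, mul_assoc]
  rw [e1] at hcf hp
  have hω : ω 0 * ω 1 ∉ BB := fun h => hωB (by rw [hB, mem_filter]; exact ⟨mem_univ _, h⟩)
  rw [hBB, mem_union, not_or] at hω
  refine ⟨ω 0, ω 1, ω 2, ?_, ?_, hcf.1, hp⟩
  · have := hω.1
    rw [mem_badP, not_not] at this
    exact this
  · by_contra hcon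
    refine hω.2 (mem_image.2 ⟨((ω 0 * ω 1)⁻¹ * X), ?_, by group⟩)
    rw [mem_badP]
    intro h
    apply hcon
    have e : ω 2 * ((ω 0 * ω 1 * ω 2)⁻¹ * X) = (ω 0 * ω 1)⁻¹ * X := by group
    rw [e]
    exact h

theorem prs_four (γ a b c d : G) : prs γ ({a, b, c, d} : Multiset G) =
    {a, a⁻¹ * γ} + ({b, b⁻¹ * γ} + ({c, c⁻¹ * γ} + {d, d⁻¹ * γ})) := by
  simp only [prs, pr, Multiset.insert_eq_cons, Multiset.cons_bind, Multiset.singleton_bind]

/-- the letters of one commutator -/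
theorem cfg_comm {K K₁ : ℕ} {γ : G} (hγ : γ * γ = 1) (hn : 44 ≤ Fintype.card G)
    (hrt : 44 * rt γ ≤ Fintype.card G) {R P : Finset G}
    (hav : Avail γ K₁ R P (Walk.letSys.fam γ 3 1))
    (hPb : ∀ c ∈ P, NBad K γ c ∧ NBad K γ (c⁻¹ * γ)) (X Y : G) (U : Finset G)
    (hU : 160 * (K₁ + 1) * (U.card + 4) ≤ Fintype.card G)
    (hn2 : 8 * (K₁ + 1) * (2 * K + 1) ≤ Fintype.card G) :
    ∃ (fs : List (G × G)) (L : Finset G), Cfg K γ P U fs L 0 (X * Y * X⁻¹ * Y⁻¹) ∧
      fs.length = 8 ∧ L.card = 8 := by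
  classical
  have hγi : γ⁻¹ = γ := inv_eq_of_mul_eq_one_left hγ
  obtain ⟨a1, a2, a3, g1, g2, hnd, hm⟩ := pick4 (K := K) hγ hn hrt hav X U
    ((Nat.mul_le_mul_left _ (by omega)).trans hU) hn2
  obtain ⟨LX, hLX⟩ : ∃ L : Finset G, L.val =
      ({γ * a1⁻¹, a2, γ * a3⁻¹, (a1 * a2 * a3)⁻¹ * X} : Multiset G) :=
    ⟨⟨_, Multiset.nodup_of_le (le_prs γ _) hnd⟩, rfl⟩
  have hLXc : LX.card = 4 := by
    rw [← Finset.card_val, hLX]
    rfl
  have hLXs : LX ⊆ P \ U := by
    intro c hc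
    rw [← Finset.mem_val, hLX] at hc
    exact mem_sdiff.2 (hm c (by simpa using hc))
  have hUX : (U ∪ LX).card ≤ U.card + 4 := (card_union_le _ _).trans (by omega)
  obtain ⟨b1, b2, b3, k1, k2, hnd', hm'⟩ := pick4 (K := K) hγ hn hrt hav Y (U ∪ LX)
    ((Nat.mul_le_mul_left _ hUX).trans hU) hn2
  obtain ⟨LY, hLY⟩ : ∃ L : Finset G, L.val =
      ({γ * b1⁻¹, b2, γ * b3⁻¹, (b1 * b2 * b3)⁻¹ * Y} : Multiset G) :=
    ⟨⟨_, Multiset.nodup_of_le (le_prs γ _) hnd'⟩, rfl⟩
  have hLYc : LY.card = 4 := by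
    rw [← Finset.card_val, hLY]
    rfl
  have hLYs : LY ⊆ P \ (U ∪ LX) := by
    intro c hc
    rw [← Finset.mem_val, hLY] at hc
    exact mem_sdiff.2 (hm' c (by simpa using hc))
  obtain ⟨a4, ha4⟩ : ∃ a, a = (a1 * a2 * a3)⁻¹ * X := ⟨_, rfl⟩
  obtain ⟨b4, hb4⟩ : ∃ b, b = (b1 * b2 * b3)⁻¹ * Y := ⟨_, rfl⟩
  rw [← ha4] at g2 hLX hm
  rw [← hb4] at k2 hLY hm'
  have hX : a1 * a2 * a3 * a4 = X := by rw [ha4]; group
  have hY : b1 * b2 * b3 * b4 = Y := by rw [hb4]; group
  -- the colours are not bad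
  have inv1 : ∀ a : G, (γ * a⁻¹)⁻¹ * γ = a := by
    intro a
    rw [mul_inv_rev, inv_inv, mul_assoc, hγi, hγ, mul_one]
  have m1 := hPb _ (hm (γ * a1⁻¹) (by simp)).1
  have m2 := hPb _ (hm a2 (by simp)).1
  have m3 := hPb _ (hm (γ * a3⁻¹) (by simp)).1
  have m4 := hPb _ (hm a4 (by simp)).1
  have q1 := hPb _ (hm' (γ * b1⁻¹) (by simp)).1
  have q2 := hPb _ (hm' b2 (by simp)).1
  have q3 := hPb _ (hm' (γ * b3⁻¹) (by simp)).1
  have q4 := hPb _ (hm' b4 (by simp)).1
  rw [inv1] at m1 m3 q1 q3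
  have hgg : ∀ a b : G, a⁻¹ * γ * (γ * b⁻¹) = (b * a)⁻¹ := by
    intro a b
    calc a⁻¹ * γ * (γ * b⁻¹) = a⁻¹ * (γ * γ) * b⁻¹ := by group
      _ = (b * a)⁻¹ := by rw [hγ, mul_one, mul_inv_rev]
  have hLXY : Disjoint LX LY := by
    rw [Finset.disjoint_left]
    intro x hx hx'
    exact (mem_sdiff.1 (hLYs hx')).2 (mem_union_right _ hx)
  refine ⟨[(a1, a2), (a3, a4), (b1, b2), (b3, b4), (a4⁻¹ * γ, γ * a3⁻¹),
    (a2⁻¹ * γ, γ * a1⁻¹), (b4⁻¹ * γ, γ * b3⁻¹), (b2⁻¹ * γ, γ * b1⁻¹)], LX ∪ LY,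
    ⟨?_, ?_, ?_, ?_⟩, rfl, ?_⟩
  · intro x hx
    rcases mem_union.1 hx with h | h
    · exact hLXs h
    · have := mem_sdiff.1 (hLYs h)
      exact mem_sdiff.2 ⟨this.1, fun hu => this.2 (mem_union_left _ hu)⟩
  · intro q hq
    simp only [List.mem_cons, List.not_mem_nil, or_false] at hq
    rcases hq with rfl | rfl | rfl | rfl | rfl | rfl | rfl | rfl
    · exact GPr.feed m1.2 m2.1 g1
    · exact GPr.feed m3.2 m4.1 g2
    · exact GPr.feed q1.2 q2.1 k1
    · exact GPr.feed q3.2 q4.1 k2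
    · exact GPr.feed m4.2 m3.1 (by rw [hgg]; exact g2.inv)
    · exact GPr.feed m2.2 m1.1 (by rw [hgg]; exact g1.inv)
    · exact GPr.feed q4.2 q3.1 (by rw [hgg]; exact k2.inv)
    · exact GPr.feed q2.2 q1.1 (by rw [hgg]; exact k1.inv)
  · have hv : (LX ∪ LY).val = LX.val + LY.val := by
      rw [← disjUnion_eq_union LX LY hLXY, disjUnion_val]
    rw [hv, prs_add, hLX, hLY, prs_four, prs_four, inv1, inv1, inv1, inv1]
    simp only [List.map_cons, List.map_nil, List.sum_cons, List.sum_nil, add_zero, zero_add]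
    simp only [Multiset.insert_eq_cons, ← Multiset.singleton_add]
    abel
  · simp only [List.map_cons, List.map_nil, List.prod_cons, List.prod_nil, mul_one, hgg]
    rw [← hX, ← hY]
    group
  · rw [card_union_of_disjoint hLXY, hLXc, hLYc]

/-- the letters of a product of commutators -/
theorem cfg_comms {K K₁ : ℕ} {γ : G} (hγ : γ * γ = 1) (hn : 44 ≤ Fintype.card G)
    (hrt : 44 * rt γ ≤ Fintype.card G) {R P : Finset G}
    (hav : Avail γ K₁ R P (Walk.letSys.fam γ 3 1))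
    (hPb : ∀ c ∈ P, NBad K γ c ∧ NBad K γ (c⁻¹ * γ))
    (hn2 : 8 * (K₁ + 1) * (2 * K + 1) ≤ Fintype.card G) (l : List (G × G)) :
    ∀ U : Finset G, 160 * (K₁ + 1) * (U.card + 8 * l.length) ≤ Fintype.card G →
    ∃ (fs : List (G × G)) (L : Finset G),
      Cfg K γ P U fs L 0 (l.map fun p => p.1 * p.2 * p.1⁻¹ * p.2⁻¹).prod ∧
      fs.length = 8 * l.length ∧ L.card = 8 * l.length := by
  induction l with
  | nil =>
    intro U _
    exact ⟨[], ∅, Cfg.nil K γ P U, rfl, rfl⟩
  | cons p l ih =>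
    intro U hU
    rw [List.length_cons] at hU
    obtain ⟨fs, L, hC, hl, hL⟩ := cfg_comm hγ hn hrt hav hPb p.1 p.2 U
      ((Nat.mul_le_mul_left _ (by omega)).trans hU) hn2
    have hUL : (U ∪ L).card ≤ U.card + 8 := (card_union_le _ _).trans (by omega)
    obtain ⟨fs', L', hC', hl', hL'⟩ := ih (U ∪ L)
      ((Nat.mul_le_mul_left _ (by omega)).trans hU)
    obtain ⟨h1, h2⟩ := hC.append hC'
    refine ⟨fs ++ fs', L ∪ L', ?_, ?_, ?_⟩
    · rw [List.map_cons, List.prod_cons]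
      simpa using h1
    · rw [List.length_append, hl, hl', List.length_cons]
      ring
    · rw [h2, hL, hL', List.length_cons]
      ring

theorem ms_succ {Db : Multiset G} {k : ℕ} (h : Multiset.card Db = k + 1) :
    ∃ a D', Db = a ::ₘ D' ∧ Multiset.card D' = k := by
  obtain ⟨a, ha⟩ := Multiset.card_pos_iff_exists_mem.1 (by omega : 0 < Multiset.card Db)
  obtain ⟨D', rfl⟩ := Multiset.exists_cons_of_mem ha
  exact ⟨a, D', rfl, by simpa using h⟩

theorem exists_pairs (n : ℕ) : ∀ Db : Multiset G, Multiset.card Db = 2 * n →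
    ∃ l : List (G × G), l.length = n ∧
      (l.map fun q => ({q.1, q.2} : Multiset G)).sum = Db := by
  induction n with
  | zero =>
    intro Db h
    refine ⟨[], rfl, ?_⟩
    rw [mul_zero, Multiset.card_eq_zero] at h
    rw [h]
    rfl
  | succ n ih =>
    intro Db h
    obtain ⟨a, Db', rfl, h'⟩ := ms_succ (show Multiset.card Db = (2 * n + 1) + 1 by omega)
    obtain ⟨b, Db'', rfl, h''⟩ := ms_succ h'
    obtain ⟨l, h1, h2⟩ := ih Db'' h''
    refine ⟨(a, b) :: l, by rw [List.length_cons, h1], ?_⟩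
    rw [List.map_cons, List.sum_cons, h2]
    simp only [Multiset.insert_eq_cons, Multiset.cons_add, Multiset.singleton_add]

theorem of_pairs (γ : G) (l : List (G × G)) :
    Abelianization.of ((l.map fun q => q.1 * γ * q.2).prod) =
      (((l.map fun q => ({q.1, q.2} : Multiset G)).sum).map fun d =>
        Abelianization.of d).prod * Abelianization.of γ ^ l.length := by
  induction l with
  | nil => simp
  | cons q l ih =>
    rw [List.map_cons, List.prod_cons, List.map_cons, List.sum_cons, map_mul, ih,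
      Multiset.map_add, Multiset.prod_add, List.length_cons, pow_succ, map_mul, map_mul]
    simp only [Multiset.insert_eq_cons, Multiset.map_cons, Multiset.map_singleton,
      Multiset.prod_cons, Multiset.prod_singleton]
    simp only [mul_assoc, mul_comm, mul_left_comm]

end let2

/-- **LET**: choice of the letters. -/
theorem stmt_LET (hCOMM : Stmt_COMM) : Stmt_LET := by
  intro K₁ K
  refine ⟨K + 44, fun M => ?_⟩
  obtain ⟨b, hb⟩ : ∃ b, b = (K₁ + 1) * (K + 1) * (M + 1) := ⟨_, rfl⟩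
  have hb1 : 1 ≤ b := by
    rw [hb]
    exact Nat.mul_pos (Nat.mul_pos (Nat.succ_pos _) (Nat.succ_pos _)) (Nat.succ_pos _)
  have hbK₁ : K₁ + 1 ≤ b := by
    rw [hb, mul_assoc]
    exact Nat.le_mul_of_pos_right _ (Nat.mul_pos (Nat.succ_pos _) (Nat.succ_pos _))
  have hbKK : (K₁ + 1) * (K + 1) ≤ b := by
    rw [hb]
    exact Nat.le_mul_of_pos_right _ (Nat.succ_pos _)
  have hbM : M + 1 ≤ b := by
    rw [hb]
    exact Nat.le_mul_of_pos_left _ (Nat.mul_pos (Nat.succ_pos _) (Nat.succ_pos _))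
  obtain ⟨N₀, hN₀⟩ := hCOMM (10000 * b)
  refine ⟨10000 * b, max (10000 * b) N₀, ?_⟩
  intro G _ _ _ γ R P U hN hγ hrt _ hP hav hPb hU Db x X r hDb hDc hev hx hX hcl
  have hγi : γ⁻¹ = γ := inv_eq_of_mul_eq_one_left hγ
  have hn1 : 10000 * b ≤ Fintype.card G := (le_max_left _ _).trans hN
  have hn0 : N₀ ≤ Fintype.card G := (le_max_right _ _).trans hN
  have hPb' : ∀ c ∈ P, NBad K γ c ∧ NBad K γ (c⁻¹ * γ) := fun c hc =>
    ⟨nbad_mono (hPb c hc).1 (by omega), nbad_mono (hPb c hc).2 (by omega)⟩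
  have hrt' : 44 * rt γ ≤ Fintype.card G :=
    (Nat.mul_le_mul_right _ (by omega : 44 ≤ K + 44)).trans hrt
  obtain ⟨D2, hD2⟩ := hev
  obtain ⟨l, hl, hls⟩ := exists_pairs D2 Db (by omega)
  obtain ⟨h0, hh0⟩ : ∃ h, h = (l.map fun q => q.1 * γ * q.2).prod := ⟨_, rfl⟩
  obtain ⟨E, hE, hE4⟩ : ∃ E, E = (r + 3 * Multiset.card Db + 2) % 4 ∧ E < 4 :=
    ⟨_, rfl, Nat.mod_lt _ (by norm_num)⟩
  obtain ⟨κ, hκ⟩ : ∃ κ, κ = h0⁻¹ * x⁻¹ * γ ^ (E + 2) * x := ⟨_, rfl⟩
  have hof : Abelianization.of h0 = (Db.map fun d => Abelianization.of d).prod *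
      Abelianization.of γ ^ D2 := by
    rw [hh0, of_pairs, hls, hl]
  have hcl' : Abelianization.of h0 * Abelianization.of γ ^ r = 1 := by
    rw [hof, mul_assoc, ← pow_add]
    have e : Multiset.card Db / 2 = D2 := by omega
    rw [e] at hcl
    exact hcl
  have hκof : Abelianization.of κ = 1 := by
    have e1 : Abelianization.of κ = (Abelianization.of h0)⁻¹ * Abelianization.of γ ^ (E + 2) := by
      rw [hκ, map_mul, map_mul, map_mul, map_inv, map_inv, map_pow]
      rw [mul_right_comm, mul_assoc (Abelianization.of h0)⁻¹, inv_mul_cancel, mul_one]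
    have e2 : (Abelianization.of h0)⁻¹ = Abelianization.of γ ^ r :=
      inv_eq_of_mul_eq_one_right hcl'
    rw [e1, e2, ← pow_add]
    obtain ⟨j, hj⟩ : ∃ j, r + (E + 2) = 2 * j := ⟨(r + (E + 2)) / 2, by omega⟩
    rw [hj, pow_mul, ← map_pow, pow_two, hγ, map_one, one_pow]
  have hκc : κ ∈ commutator G := by
    rw [← Abelianization.ker_of]
    exact hκof
  obtain ⟨Lc, hLc, hLp⟩ := hN₀ G hn0 κ hκc
  -- numerical estimates
  have i1 : b * U.card * 10000 ≤ Fintype.card G := by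
    calc b * U.card * 10000 = 10000 * b * U.card := by ring
      _ ≤ _ := hU
  have i2 : b * Multiset.card Db * 10000 ≤ Fintype.card G := by
    calc b * Multiset.card Db * 10000 = 10000 * b * Multiset.card Db := by ring
      _ ≤ _ := hDc
  have i3 : b * Lc.length * 10000 ≤ Fintype.card G := by
    calc b * Lc.length * 10000 = 10000 * b * Lc.length := by ring
      _ ≤ _ := hLc
  have hPc : 4 * K + 5 + (U.card + Multiset.card Db + 8 * Lc.length) < P.card := by
    by_contra hlt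
    have h1 : P.card ≤ 4 * K + 5 + (U.card + Multiset.card Db + 8 * Lc.length) := by omega
    have h2 := hP.trans (Nat.mul_le_mul_left K₁ h1)
    have h3 : K₁ * (4 * K + 5) ≤ 5 * b := by
      calc K₁ * (4 * K + 5) ≤ (K₁ + 1) * (5 * (K + 1)) :=
            Nat.mul_le_mul (by omega) (by omega)
        _ = 5 * ((K₁ + 1) * (K + 1)) := by ring
        _ ≤ 5 * b := Nat.mul_le_mul_left _ hbKK
    have h4 : K₁ * (U.card + Multiset.card Db + 8 * Lc.length) ≤
        b * U.card + b * Multiset.card Db + 8 * (b * Lc.length) := by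
      calc K₁ * (U.card + Multiset.card Db + 8 * Lc.length)
          ≤ b * (U.card + Multiset.card Db + 8 * Lc.length) :=
            Nat.mul_le_mul_right _ (by omega)
        _ = _ := by ring
    rw [mul_add] at h2
    omega
  have hbound : ∀ y : ℕ, y ≤ U.card + Multiset.card Db + 8 * Lc.length →
      160 * (K₁ + 1) * y ≤ Fintype.card G := by
    intro y hy
    calc 160 * (K₁ + 1) * y ≤ 160 * b * (U.card + Multiset.card Db + 8 * Lc.length) :=
          Nat.mul_le_mul (Nat.mul_le_mul_left _ hbK₁) hy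
      _ = 160 * (b * U.card) + 160 * (b * Multiset.card Db) + 1280 * (b * Lc.length) := by ring
      _ ≤ Fintype.card G := by omega
  have hn2 : 8 * (K₁ + 1) * (2 * K + 1) ≤ Fintype.card G := by
    calc 8 * (K₁ + 1) * (2 * K + 1) ≤ 8 * (K₁ + 1) * (2 * (K + 1)) :=
          Nat.mul_le_mul_left _ (by omega)
      _ = 16 * ((K₁ + 1) * (K + 1)) := by ring
      _ ≤ 16 * b := Nat.mul_le_mul_left _ hbKK
      _ ≤ Fintype.card G := by omega
  -- debts
  have hnb : ∀ q ∈ l, NBad K γ q.1 ∧ NBad K γ q.2 := by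
    intro q hq
    have hmem : ∀ y ∈ ({q.1, q.2} : Multiset G), y ∈ Db := by
      intro y hy
      rw [← hls]
      exact Multiset.mem_of_le (List.single_le_sum (fun _ _ => Multiset.zero_le _) _
        (List.mem_map.2 ⟨q, hq, rfl⟩)) hy
    exact ⟨nbad_mono (hDb _ (hmem _ (by simp))) (by omega),
      nbad_mono (hDb _ (hmem _ (by simp))) (by omega)⟩
  obtain ⟨fs1, L1, hC1, hl1, hL1⟩ := cfg_debts hPb' l U hnb (by omega)
  have hU1 : (U ∪ L1).card ≤ U.card + D2 := (card_union_le _ _).trans (by omega)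
  obtain ⟨fs2, L2, hC2, hl2, hL2⟩ := cfg_comms hγ (by omega) hrt' hav hPb' hn2 Lc (U ∪ L1)
    (hbound _ (by omega))
  obtain ⟨c1, hc1⟩ := hC1.append hC2
  have hU2 : (U ∪ (L1 ∪ L2)).card ≤ U.card + (D2 + 8 * Lc.length) :=
    (card_union_le _ _).trans (by omega)
  obtain ⟨fs3, L3, hC3, hl3, hL3⟩ := cfg_chain hPb' E (U ∪ (L1 ∪ L2)) (x⁻¹ * γ) (X⁻¹ * γ)
    (hPb' x hx).2 (hPb' X hX).2 (by omega)
  obtain ⟨c2, hc2⟩ := c1.append hC3
  refine ⟨fs1 ++ fs2 ++ fs3, L1 ∪ L2 ∪ L3, c2.sub, c2.fd, ?_, ?_, ?_, ?_⟩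
  · rw [c2.sum, hls, add_zero]
  · rw [c2.prod, hLp, ← hh0, hκ]
    have e : γ ^ (E + 2) * γ ^ (E + 2) = 1 := by
      rw [← pow_add, ← two_mul, pow_mul, pow_two, hγ, one_pow]
    calc x * (h0 * (h0⁻¹ * x⁻¹ * γ ^ (E + 2) * x) * (x⁻¹ * γ * γ ^ (E + 1) * (X⁻¹ * γ)))
        = γ ^ (E + 2) * (γ * γ ^ (E + 1)) * (X⁻¹ * γ) := by group
      _ = X⁻¹ * γ := by rw [← pow_succ', e, one_mul]
  · rw [List.length_append, List.length_append, hl1, hl2, hl3]
    omega
  · rw [List.length_append, List.length_append, hl1, hl2, hl3]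
    calc M * (2 * l.length + 8 * Lc.length + (E + 2))
        ≤ b * (Multiset.card Db + 8 * Lc.length + 5) := Nat.mul_le_mul (by omega) (by omega)
      _ = b * Multiset.card Db + 8 * (b * Lc.length) + 5 * b := by ring
      _ ≤ Fintype.card G := by omega

end Pool.OM.h64
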