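import Pool.Agent.Work.MP_8d2cba_co_h64.P1

/-! MP_8d2cba_co, block P1, second part: leftover vertices. -/

set_option autoImplicit false
set_option linter.unusedSectionVars false

namespace Pool.OM.h64

open Finset Pool.OM

section vtx
variable {G : Type} [Group G] [Fintype G] [DecidableEq G]

/-- one leftover vertex with a good couple -/
theorem step_vertex (hR2 : Stmt_R2) (hR3 : Stmt_R3) {K₁ : ℕ} {γ : G} (hγ : γ * γ = 1)
    {R P : Finset G} (hav : ∀ F ∈ covFams γ, Avail γ K₁ R P F) (hn : 100 ≤ Fintype.card G)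
    (hrt : 100 * rt γ ≤ Fintype.card G) (v : G) (c : Cp G) (hc : LvAd 100 γ c v)
    (U U' : Finset G) (haP : c.s⁻¹ * v ∈ P) (haU : c.s⁻¹ * v ∉ U')
    (hU : K₁ * (5 * (U.card + (U'.card + 1))) < Fintype.card G) :
    ∃ W W' : Finset G, W ⊆ R \ U ∧ W' ⊆ P \ U' ∧ MS (c.idx γ) (v ::ₘ W.val) W'.val := by
  have hγi : γ⁻¹ = γ := inv_eq_of_mul_eq_one_left hγ
  have hUb : K₁ * (3 * U.card + 5 * (insert (c.s⁻¹ * v) U').card) < Fintype.card G := by
    refine lt_of_le_of_lt (Nat.mul_le_mul_left _ ?_) hU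
    have := Finset.card_insert_le (c.s⁻¹ * v) U'
    omega
  obtain ⟨ω, h1, h2, h3⟩ := choose_fam hR2 hR3 (K₁ := K₁) Walk.lvSys 3 4
      (l := [Ob.rt [(0, false)], Ob.rt [(4, true), (7, false), (5, false)],
        Ob.cj [(5, true), (7, true), (4, false)] [(0, false)],
        Ob.ne [(4, false), (5, true), (7, true), (0, true)], Ob.rt [(0, false)],
        Ob.rt [(0, false)], Ob.rt [(0, false)], Ob.rt [(0, true)]]) (by decide +kernel)
      (by decide +kernel) (by decide +kernel) hγ (hav _ (by simp [covFams]))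
      ![v, c.s, c.r, c.g] 100
      (by norm_num) (by decide +kernel) hn (by
        intro o ho
        simp only [List.mem_cons, List.not_mem_nil, or_false] at ho
        rcases ho with rfl | rfl | rfl | rfl | rfl | rfl | rfl | rfl
        · exact obOK_rt_gamma hrt _ _
        · have h := hc.a1
          have e : v * c.g⁻¹ * c.s⁻¹ = v * (v⁻¹ * c.s * c.g)⁻¹ * v⁻¹ := by group
          show 100 * rt (ev γ _ [(4, true), (7, false), (5, false)]) ≤ _
          have e2 : ev γ (join 3 (fun _ => 1) (famRho ![v, c.s, c.r, c.g]))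
              [(4, true), (7, false), (5, false)] = v * c.g⁻¹ * c.s⁻¹ := by
            simp [ev, evL, join, famRho, mul_assoc]
          rw [e2, e, rt_conj, rt_inv]
          exact h
        · have h := hc.b1
          show 100 * cj (ev γ _ [(5, true), (7, true), (4, false)]) (ev γ _ [(0, false)]) ≤ _
          have e2 : ev γ (join 3 (fun _ => 1) (famRho ![v, c.s, c.r, c.g]))
              [(5, true), (7, true), (4, false)] = c.s * c.g * v⁻¹ := by
            simp [ev, evL, join, famRho, mul_assoc]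
          have e3 : ev γ (join 3 (fun _ => 1) (famRho ![v, c.s, c.r, c.g]))
              [(0, false)] = γ := by
            simp [ev, evL]
          rw [e2, e3]
          exact h
        · have h := hc.e1
          show ev γ _ [(4, false), (5, true), (7, true), (0, true)] ≠ 1
          have e2 : ev γ (join 3 (fun _ => 1) (famRho ![v, c.s, c.r, c.g]))
              [(4, false), (5, true), (7, true), (0, true)] = v⁻¹ * (c.s * c.g) * γ := by
            simp [ev, evL, join, famRho, mul_assoc]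
          rw [e2]
          intro h0
          apply h
          calc c.s * c.g = v * (v⁻¹ * (c.s * c.g) * γ) * γ⁻¹ := by group
            _ = v * γ := by rw [h0, hγi, mul_one]
        all_goals exact obOK_rt_gamma hrt _ _) U (insert (c.s⁻¹ * v) U') hUb
  obtain ⟨W, W', hW, hW', hWv, hWv'⟩ := choose_sets h1 h2 h3
  have hnot : c.s⁻¹ * v ∉ W' := fun hmem => (mem_sdiff.1 (hW' hmem)).2 (mem_insert_self _ _)
  refine ⟨W, insert (c.s⁻¹ * v) W', hW, ?_, ?_⟩
  · intro x hx
    rcases mem_insert.1 hx with rfl | hx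
    · exact mem_sdiff.2 ⟨haP, haU⟩
    · have := mem_sdiff.1 (hW' hx)
      exact mem_sdiff.2 ⟨this.1, fun h => this.2 (mem_insert_of_mem h)⟩
  · rw [insert_val_of_notMem hnot, hWv, hWv']
    have e1 : Walk.lvSys.vw.map (ev γ (join 3 ω (famRho ![v, c.s, c.r, c.g]))) =
        [ω 0, ω 1, ω 2] := by
      simp [Walk.lvSys, Walk.X, Walk.i, Wd.inv, ev, evL, join, famRho]
    have e2 : Walk.lvSys.pw.map (ev γ (join 3 ω (famRho ![v, c.s, c.r, c.g]))) =
        [v⁻¹ * ω 0, (ω 0)⁻¹ * c.t, c.r⁻¹ * ω 1, (ω 1)⁻¹ * ω 2, (ω 2)⁻¹ * c.t' γ] := by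
      simp [Walk.lvSys, Walk.X, Walk.i, Wd.inv, ev, evL, join, famRho, Walk.CW.t, Walk.CW.t',
        Walk.CW.g', Walk.γ, Cp.t, Cp.t', Cp.g', mul_assoc]
    rw [e1, e2]
    have h4 := (MS.three c.s c.t v (ω 0)).add (MS.three c.r (c.t' γ) (ω 1) (ω 2))
    have e3 : ({(c.s, c.t, 3)} : Multiset (Idx G)) + {(c.r, c.t' γ, 3)} = c.idx γ := by
      rfl
    rw [e3] at h4
    exact h4

end vtx

section couple
variable {G : Type} [Group G] [Fintype G] [DecidableEq G]

theorem card_filter_inj {α β : Type} [DecidableEq α] [DecidableEq β] (Q : Finset α) (f : α → β)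
    (hf : Set.InjOn f (Q : Set α)) (p : α → Prop) [DecidablePred p] (T : Finset β)
    (h : ∀ c ∈ Q, p c → f c ∈ T) : (Q.filter p).card ≤ T.card := by
  refine Finset.card_le_card_of_injOn f ?_ ?_
  · intro c hc
    have := mem_filter.1 (Finset.mem_coe.1 hc)
    exact Finset.mem_coe.2 (h c this.1 this.2)
  · intro a ha b hb hab
    have ha' := mem_filter.1 (Finset.mem_coe.1 ha)
    have hb' := mem_filter.1 (Finset.mem_coe.1 hb)
    exact hf (Finset.mem_coe.2 ha'.1) (Finset.mem_coe.2 hb'.1) hab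

/-- choice of the couple for a leftover vertex -/
theorem exists_couple {K K₁ k : ℕ} {γ : G} {P : Finset G} {Q : Finset (Cp G)}
    (hQ : GenPos K k γ Q) (v : G)
    (hF : Q.card ≤ K₁ * (Q.filter fun c => c.s⁻¹ * v ∈ P).card) (Q₁ : Finset (Cp G))
    (U' : Finset G) (h : K₁ * (Q₁.card + U'.card + 201) < Q.card) :
    ∃ c ∈ Q, c ∉ Q₁ ∧ c.s⁻¹ * v ∈ P ∧ c.s⁻¹ * v ∉ U' ∧ LvAd 100 γ c v := by
  have b2 : (Q.filter fun c => c.s⁻¹ * v ∈ U').card ≤ U'.card := by
    refine card_filter_inj Q (fun c => c.s⁻¹ * v) ?_ _ U' (fun c _ hc => hc)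
    intro a ha b hb hab
    refine hQ.i1 ha hb ?_
    simpa using hab
  have b3 : (Q.filter fun c => c.s * c.g = v * γ).card ≤ 1 := by
    have := card_filter_inj Q (fun c => c.s * c.g) hQ.i2 (fun c => c.s * c.g = v * γ)
      {v * γ} (fun c _ hc => mem_singleton.2 hc)
    simpa using this
  have b4 : (Q.filter fun c => Fintype.card G < 100 * rt (v⁻¹ * c.s * c.g)).card ≤ 100 := by
    refine (card_filter_inj Q (fun c => v⁻¹ * c.s * c.g) ?_ _
      (univ.filter fun c : G => Fintype.card G < 100 * rt c) (fun c _ hc => ?_)).trans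
      (card_badrt 100)
    · intro a ha b hb hab
      refine hQ.i2 ha hb ?_
      simpa [mul_assoc] using hab
    · exact mem_filter.2 ⟨mem_univ _, hc⟩
  have b5 : (Q.filter fun c => Fintype.card G < 100 * cj (c.s * c.g * v⁻¹) γ).card ≤ 100 := by
    refine (card_filter_inj Q (fun c => c.s * c.g * v⁻¹) ?_ _
      (univ.filter fun a : G => Fintype.card G < 100 * cj a γ) (fun c _ hc => ?_)).trans
      (card_badcj 100 γ)
    · intro a ha b hb hab
      refine hQ.i2 ha hb ?_
      simpa using hab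
    · exact mem_filter.2 ⟨mem_univ _, hc⟩
  by_contra hno
  push Not at hno
  have hsub : (Q.filter fun c => c.s⁻¹ * v ∈ P) ⊆ Q₁ ∪ ((Q.filter fun c => c.s⁻¹ * v ∈ U') ∪
      ((Q.filter fun c => c.s * c.g = v * γ) ∪
      ((Q.filter fun c => Fintype.card G < 100 * rt (v⁻¹ * c.s * c.g)) ∪
      (Q.filter fun c => Fintype.card G < 100 * cj (c.s * c.g * v⁻¹) γ)))) := by
    intro c hc
    have hc' := mem_filter.1 hc
    by_contra hcon
    simp only [mem_union, mem_filter, not_or, not_and] at hcon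
    obtain ⟨n1, n2, n3, n4, n5⟩ := hcon
    exact hno c hc'.1 n1 hc'.2 (n2 hc'.1)
      ⟨n3 hc'.1, not_lt.1 (n4 hc'.1), not_lt.1 (n5 hc'.1)⟩
  have hcard := card_le_card hsub
  have hle : (Q.filter fun c => c.s⁻¹ * v ∈ P).card ≤ Q₁.card + U'.card + 201 := by
    refine hcard.trans ?_
    refine (card_union_le _ _).trans ?_
    have h1 := (card_union_le (Q.filter fun c => c.s⁻¹ * v ∈ U')
      ((Q.filter fun c => c.s * c.g = v * γ) ∪
      ((Q.filter fun c => Fintype.card G < 100 * rt (v⁻¹ * c.s * c.g)) ∪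
      (Q.filter fun c => Fintype.card G < 100 * cj (c.s * c.g * v⁻¹) γ))))
    have h2 := (card_union_le (Q.filter fun c => c.s * c.g = v * γ)
      ((Q.filter fun c => Fintype.card G < 100 * rt (v⁻¹ * c.s * c.g)) ∪
      (Q.filter fun c => Fintype.card G < 100 * cj (c.s * c.g * v⁻¹) γ)))
    have h3 := (card_union_le (Q.filter fun c => Fintype.card G < 100 * rt (v⁻¹ * c.s * c.g))
      (Q.filter fun c => Fintype.card G < 100 * cj (c.s * c.g * v⁻¹) γ))
    omega
  have : Q.card ≤ K₁ * (Q₁.card + U'.card + 201) := hF.trans (Nat.mul_le_mul_left _ hle)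
  omega

theorem sum_len_idx (γ : G) (Q₁ : Multiset (Cp G)) :
    ((Q₁.bind (Cp.idx γ)).map fun i => i.2.2).sum = 6 * Multiset.card Q₁ := by
  induction Q₁ using Multiset.induction_on with
  | empty => simp
  | cons c Q₁ ih =>
    rw [Multiset.cons_bind, Multiset.map_add, Multiset.sum_add, ih, Multiset.card_cons]
    have : ((Cp.idx γ c).map fun i => i.2.2).sum = 6 := by simp [Cp.idx]
    omega

theorem sum_len_idx' (γ : G) (Q₁ : Multiset (Cp G)) :
    ((Q₁.bind (Cp.idx γ)).map fun i => i.2.2 - 1).sum = 4 * Multiset.card Q₁ := by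
  induction Q₁ using Multiset.induction_on with
  | empty => simp
  | cons c Q₁ ih =>
    rw [Multiset.cons_bind, Multiset.map_add, Multiset.sum_add, ih, Multiset.card_cons]
    have : ((Cp.idx γ c).map fun i => i.2.2 - 1).sum = 4 := by simp [Cp.idx]
    omega

theorem sum_le_five (LI : Multiset (Idx G)) (hLI : ∀ i ∈ LI, i.2.2 = 3 ∨ i.2.2 = 4 ∨ i.2.2 = 5) :
    (LI.map fun i => i.2.2 - 1).sum ≤ 4 * Multiset.card LI ∧
    (LI.map fun i => i.2.2).sum ≤ 5 * Multiset.card LI := by
  induction LI using Multiset.induction_on with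
  | empty => simp
  | cons i LI ih =>
    obtain ⟨h1, h2⟩ := ih fun j hj => hLI j (Multiset.mem_cons_of_mem hj)
    have h3 := hLI i (Multiset.mem_cons_self _ _)
    rw [Multiset.map_cons, Multiset.sum_cons, Multiset.map_cons, Multiset.sum_cons,
      Multiset.card_cons]
    constructor <;> rcases h3 with h | h | h <;> omega

/-- all leftover vertices -/
theorem phase_vertex (hR2 : Stmt_R2) (hR3 : Stmt_R3) {K K₁ k : ℕ} {γ : G} (hγ : γ * γ = 1)
    {R P : Finset G} {Q : Finset (Cp G)} (hQ : GenPos K k γ Q)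
    (hav : ∀ F ∈ covFams γ, Avail γ K₁ R P F) (hn : 100 ≤ Fintype.card G)
    (hrt : 100 * rt γ ≤ Fintype.card G)
    (hF : ∀ v : G, Q.card ≤ K₁ * (Q.filter fun c => c.s⁻¹ * v ∈ P).card)
    (LI : Multiset (Idx G))
    (hLI : ∀ i ∈ LI, i.2.2 = 3 ∨ i.2.2 = 4 ∨ i.2.2 = 5)
    (hc1 : K₁ * (33 * Multiset.card LI + 201) < Q.card)
    (hc2 : K₁ * (5 * (45 * Multiset.card LI + 1)) < Fintype.card G)
    (LV : Finset G) (hLV : LV.card ≤ 4 * Multiset.card LI) :
    ∃ (Q₁ : Finset (Cp G)) (U U' : Finset G), Q₁ ⊆ Q ∧ Q₁.card = LV.card ∧ U ⊆ R ∧ U' ⊆ P ∧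
      MS (LI + Q₁.val.bind (Cp.idx γ)) (LV.val + U.val) U'.val := by
  induction LV using Finset.induction_on with
  | empty =>
    obtain ⟨U, U', hU, hU', hMS⟩ := phase_idx hR2 hR3 hγ hav hn hrt LI hLI
      (lt_of_le_of_lt (Nat.mul_le_mul_left _ (by omega)) hc2)
    exact ⟨∅, U, U', empty_subset _, rfl, hU, hU', by simpa using hMS⟩
  | insert v LV hv ih =>
    rw [card_insert_of_notMem hv] at hLV
    obtain ⟨Q₁, U, U', hQ₁, hQc, hU, hU', hMS⟩ := ih (by omega)
    have s1 := hMS.card_C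
    have s2 := hMS.card_V
    rw [Multiset.map_add, Multiset.sum_add, sum_len_idx] at s1
    rw [Multiset.map_add, Multiset.sum_add, sum_len_idx', Multiset.card_add] at s2
    simp only [Finset.card_val] at s1 s2
    obtain ⟨s3, s4⟩ := sum_le_five LI hLI
    obtain ⟨c, hcQ, hcQ₁, hcP, hcU, hcA⟩ := exists_couple hQ v (hF v) Q₁ U'
      (lt_of_le_of_lt (Nat.mul_le_mul_left _ (by omega)) hc1)
    obtain ⟨W, W', hW, hW', hMS'⟩ := step_vertex hR2 hR3 hγ hav hn hrt v c hcA U U' hcP hcU
      (lt_of_le_of_lt (Nat.mul_le_mul_left _ (by omega)) hc2)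
    have hd : Disjoint W U := Finset.disjoint_left.2 fun x hx => (mem_sdiff.1 (hW hx)).2
    have hd' : Disjoint W' U' := Finset.disjoint_left.2 fun x hx => (mem_sdiff.1 (hW' hx)).2
    refine ⟨insert c Q₁, W.disjUnion U hd, W'.disjUnion U' hd', ?_, ?_, ?_, ?_, ?_⟩
    · exact insert_subset hcQ hQ₁
    · rw [card_insert_of_notMem hcQ₁, card_insert_of_notMem hv, hQc]
    · intro x hx
      rcases mem_disjUnion.1 hx with h | h
      · exact (mem_sdiff.1 (hW h)).1
      · exact hU h
    · intro x hx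
      rcases mem_disjUnion.1 hx with h | h
      · exact (mem_sdiff.1 (hW' h)).1
      · exact hU' h
    · rw [disjUnion_val, disjUnion_val, insert_val_of_notMem hcQ₁, insert_val_of_notMem hv,
        Multiset.cons_bind]
      have h := hMS'.add hMS
      have e1 : Cp.idx γ c + (LI + Q₁.val.bind (Cp.idx γ)) =
          LI + (Cp.idx γ c + Q₁.val.bind (Cp.idx γ)) := by abel
      have e2 : (v ::ₘ W.val) + (LV.val + U.val) = (v ::ₘ LV.val) + (W.val + U.val) := by
        rw [← Multiset.singleton_add, ← Multiset.singleton_add]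
        abel
      rw [e1, e2] at h
      exact h

end couple

/-- **P1**: covering of the leftover indices and vertices. -/
theorem stmt_P1 (hR2 : Stmt_R2) (hR3 : Stmt_R3) : Stmt_P1 := by
  intro K₁
  refine ⟨100, fun K₂ => ⟨1000 * (K₁ + 1) * (K₂ + 1), ?_⟩⟩
  intro G _ _ _ k γ R P Q hγ hn hrt _ hav hQ hF hQn _ LI LV hLI hLIc hLV
  have hpos : 1 ≤ (K₁ + 1) * (K₂ + 1) := Nat.mul_pos (Nat.succ_pos _) (Nat.succ_pos _)
  have hn1 : 1000 ≤ Fintype.card G := by
    refine le_trans ?_ hn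
    rw [mul_assoc]
    exact le_mul_of_one_le_right (by norm_num) hpos
  obtain ⟨s3, s4⟩ := sum_le_five LI hLI
  -- the size conditions
  have hsz : (K₁ + 1) * (K₂ + 1) * (300 * Multiset.card LI + 300) < Fintype.card G := by
    have h1 : 1000 * ((K₁ + 1) * (K₂ + 1) * Multiset.card LI) ≤ Fintype.card G := by
      calc _ = 1000 * (K₁ + 1) * (K₂ + 1) * Multiset.card LI := by ring
        _ ≤ _ := hLIc
    have h2 : 1000 * ((K₁ + 1) * (K₂ + 1)) ≤ Fintype.card G := by
      calc _ = 1000 * (K₁ + 1) * (K₂ + 1) := by ring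
        _ ≤ _ := hn
    have h3 : (K₁ + 1) * (K₂ + 1) * (300 * Multiset.card LI + 300) =
        300 * ((K₁ + 1) * (K₂ + 1) * Multiset.card LI) + 300 * ((K₁ + 1) * (K₂ + 1)) := by ring
    rw [h3]
    omega
  have hc2 : K₁ * (5 * (45 * Multiset.card LI + 1)) < Fintype.card G := by
    refine lt_of_le_of_lt ?_ hsz
    refine Nat.mul_le_mul ?_ (by omega)
    nlinarith
  have hc1 : K₁ * (33 * Multiset.card LI + 201) < Q.card := by
    have h1 : K₂ * (K₁ * (33 * Multiset.card LI + 201)) < K₂ * Q.card := by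
      refine lt_of_le_of_lt ?_ (lt_of_lt_of_le hsz hQn)
      rw [← mul_assoc]
      refine Nat.mul_le_mul ?_ (by omega)
      nlinarith
    exact lt_of_mul_lt_mul_left h1 (Nat.zero_le _)
  obtain ⟨Q₁, U, U', h1, h2, h3, h4, h5⟩ := phase_vertex hR2 hR3 hγ hQ hav (by omega) hrt hF LI
    hLI hc1 hc2 LV (by omega)
  refine ⟨Q₁, U, U', U'.val, h1, h2, h3, h4, h5, le_prs γ _, ?_⟩
  have s1 := h5.card_C
  rw [Multiset.map_add, Multiset.sum_add, sum_len_idx] at s1
  simp only [Finset.card_val] at s1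
  omega

end Pool.OM.h64
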