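import Pool.Agent.Work.MP_8d2cba_co_h18.Interface2
import Pool.Agent.Work.MP_8d2cba_co_h18.Basic
import Pool.Agent.Work.MP_8d2cba_co_h64.INIT

/-! MP_8d2cba_co, block P1: covering of the leftover indices and vertices. -/

set_option autoImplicit false
set_option linter.unusedSectionVars false

namespace Pool.OM.h64

open Finset Pool.OM

/-! ### Choice in a family -/

/-- the parameters as a function on the natural numbers -/
def famRho {G : Type} [Group G] {m : ℕ} (π : Fin m → G) (j : ℕ) : G :=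
  if h : j < m then π ⟨j, h⟩ else 1

section avail
variable {G : Type} [Group G] [Fintype G]

open Classical in
theorem avail_fam {γ : G} {K₁ : ℕ} {R P : Finset G} (S : Sys) (f m : ℕ)
    (hav : Avail γ K₁ R P (S.fam γ f m)) (π : Fin m → G)
    (h : Fintype.card G ^ f ≤ 2 * (univ.filter fun ω : Fin f → G =>
      CF γ (S.pw.map (ev γ (join f ω (famRho π))))
        (S.vw.map (ev γ (join f ω (famRho π))))).card) :
    Fintype.card G ^ f ≤ K₁ * (univ.filter fun ω : Fin f → G =>
      CF γ (S.pw.map (ev γ (join f ω (famRho π))))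
        (S.vw.map (ev γ (join f ω (famRho π)))) ∧
      (∀ c ∈ S.pw.map (ev γ (join f ω (famRho π))), c ∈ P) ∧
      ∀ v ∈ S.vw.map (ev γ (join f ω (famRho π))), v ∈ R).card := by
  have hc : Fintype.card (Fin f → G) = Fintype.card G ^ f := by simp
  rw [← hc] at h ⊢
  have h1 := hav π h
  refine h1.trans (Nat.mul_le_mul_left _ (le_of_eq ?_))
  refine congrArg Finset.card ?_
  apply Finset.filter_congr_decidable

end avail

section choose
variable {G : Type} [Group G] [Fintype G] [DecidableEq G]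

/-- values of a uniform word in a set -/
theorem card_wordf (hR2 : Stmt_R2) {γ : G} (hγ : γ * γ = 1) (f : ℕ) {w : Wd}
    (hw : Wd.lin f (Wd.red w) = true) (ρ : ℕ → G) (U : Finset G) :
    Fintype.card G * (univ.filter fun ω : Fin f → G => ev γ (join f ω ρ) w ∈ U).card ≤
      U.card * Fintype.card G ^ f := by
  have h1 : (univ.filter fun ω : Fin f → G => ev γ (join f ω ρ) w ∈ U) ⊆
      U.biUnion fun c => univ.filter fun ω : Fin f → G => ev γ (join f ω ρ) w = c := by
    intro ω hω
    rw [mem_filter] at hω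
    exact mem_biUnion.2 ⟨_, hω.2, mem_filter.2 ⟨mem_univ _, rfl⟩⟩
  calc Fintype.card G * (univ.filter fun ω : Fin f → G => ev γ (join f ω ρ) w ∈ U).card
      ≤ Fintype.card G * ∑ c ∈ U, (univ.filter fun ω : Fin f → G =>
          ev γ (join f ω ρ) w = c).card :=
        Nat.mul_le_mul_left _ ((card_le_card h1).trans card_biUnion_le)
    _ = ∑ c ∈ U, Fintype.card G * (univ.filter fun ω : Fin f → G =>
          ev γ (join f ω ρ) w = c).card := Finset.mul_sum _ _ _
    _ = ∑ _c ∈ U, Fintype.card G ^ f := by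
        refine Finset.sum_congr rfl fun c _ => ?_
        exact hR2 G γ hγ f w hw ρ c
    _ = U.card * Fintype.card G ^ f := by rw [Finset.sum_const, smul_eq_mul]

/-- values of finitely many uniform words in a set -/
theorem card_wordsf (hR2 : Stmt_R2) {γ : G} (hγ : γ * γ = 1) (f : ℕ) (L : List Wd)
    (hL : ∀ w ∈ L, Wd.lin f (Wd.red w) = true) (ρ : ℕ → G) (U : Finset G) :
    Fintype.card G * (univ.filter fun ω : Fin f → G =>
      ∃ w ∈ L, ev γ (join f ω ρ) w ∈ U).card ≤ L.length * (U.card * Fintype.card G ^ f) := by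
  induction L with
  | nil => simp
  | cons w L ih =>
    have h1 : (univ.filter fun ω : Fin f → G => ∃ w' ∈ w :: L, ev γ (join f ω ρ) w' ∈ U) ⊆
        (univ.filter fun ω : Fin f → G => ev γ (join f ω ρ) w ∈ U) ∪
          (univ.filter fun ω : Fin f → G => ∃ w' ∈ L, ev γ (join f ω ρ) w' ∈ U) := by
      intro ω hω
      rw [mem_filter] at hω
      obtain ⟨w', hw', hu⟩ := hω.2
      rw [mem_union, mem_filter, mem_filter]
      rcases List.mem_cons.1 hw' with rfl | hw'
      · exact Or.inl ⟨mem_univ _, hu⟩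
      · exact Or.inr ⟨mem_univ _, w', hw', hu⟩
    have h2 := ih fun w' hw' => hL w' (List.mem_cons_of_mem _ hw')
    have h3 := card_wordf hR2 hγ f (hL w List.mem_cons_self) ρ U
    calc _ ≤ Fintype.card G * ((univ.filter fun ω : Fin f → G =>
            ev γ (join f ω ρ) w ∈ U).card + (univ.filter fun ω : Fin f → G =>
              ∃ w' ∈ L, ev γ (join f ω ρ) w' ∈ U).card) :=
          Nat.mul_le_mul_left _ ((card_le_card h1).trans (card_union_le _ _))
      _ ≤ U.card * Fintype.card G ^ f + L.length * (U.card * Fintype.card G ^ f) := by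
          rw [mul_add]
          exact add_le_add h3 h2
      _ = (w :: L).length * (U.card * Fintype.card G ^ f) := by
          rw [List.length_cons]
          ring

/-- choice of unused elements of the reserve in a family -/
theorem choose_fam (hR2 : Stmt_R2) (hR3 : Stmt_R3) {K₁ : ℕ} (S : Sys) (f m : ℕ) {l : List Ob}
    (hobs : S.obls f = some l) (hv : ∀ w ∈ S.vw, Wd.lin f (Wd.red w) = true)
    (hp : ∀ w ∈ S.pw, Wd.lin f (Wd.red w) = true) {γ : G} (hγ : γ * γ = 1) {R P : Finset G}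
    (hav : Avail γ K₁ R P (S.fam γ f m)) (π : Fin m → G) (Kc : ℕ) (hKc : 0 < Kc)
    (hKc' : 2 * S.colls.length ≤ Kc) (hn : Kc ≤ Fintype.card G)
    (hob : ∀ o ∈ l, ObOK Kc γ (join f (fun _ => 1) (famRho π)) o) (U U' : Finset G)
    (hU : K₁ * (S.vw.length * U.card + S.pw.length * U'.card) < Fintype.card G) :
    ∃ ω : Fin f → G, CF γ (S.pw.map (ev γ (join f ω (famRho π))))
        (S.vw.map (ev γ (join f ω (famRho π)))) ∧
      (∀ c ∈ S.pw.map (ev γ (join f ω (famRho π))), c ∈ P ∧ c ∉ U') ∧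
      ∀ v ∈ S.vw.map (ev γ (join f ω (famRho π))), v ∈ R ∧ v ∉ U := by
  classical
  have hn0 : 0 < Fintype.card G := Fintype.card_pos
  have hN : 0 < Fintype.card G ^ f := pow_pos hn0 f
  have hcf := hR3 G γ hγ f S l hobs Kc (famRho π) hn hob
  obtain ⟨cf, hcfdef⟩ : ∃ cf : (Fin f → G) → Prop, cf = fun ω =>
      CF γ (S.pw.map (ev γ (join f ω (famRho π))))
        (S.vw.map (ev γ (join f ω (famRho π)))) := ⟨_, rfl⟩
  have hhalf : Fintype.card G ^ f ≤ 2 * (univ.filter fun ω : Fin f → G => cf ω).card := by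
    have h1 := Finset.card_filter_add_card_filter_not (s := (univ : Finset (Fin f → G)))
      (fun ω : Fin f → G => cf ω)
    rw [Finset.card_univ, Fintype.card_fun, Fintype.card_fin] at h1
    have h2 : Kc * (univ.filter fun ω : Fin f → G => ¬ cf ω).card ≤
        S.colls.length * Fintype.card G ^ f := by
      subst hcfdef
      convert hcf using 4
      exact Iff.rfl
    have h3 : 2 * (univ.filter fun ω : Fin f → G => ¬ cf ω).card ≤ Fintype.card G ^ f := by
      have h4 : Kc * (2 * (univ.filter fun ω : Fin f → G => ¬ cf ω).card) ≤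
          Kc * Fintype.card G ^ f := by
        calc Kc * (2 * (univ.filter fun ω : Fin f → G => ¬ cf ω).card)
            = 2 * (Kc * (univ.filter fun ω : Fin f → G => ¬ cf ω).card) := by ring
          _ ≤ 2 * (S.colls.length * Fintype.card G ^ f) := Nat.mul_le_mul_left _ h2
          _ = (2 * S.colls.length) * Fintype.card G ^ f := by ring
          _ ≤ Kc * Fintype.card G ^ f := Nat.mul_le_mul_right _ hKc'
      exact Nat.le_of_mul_le_mul_left h4 hKc
    omega
  obtain ⟨A, hAdef⟩ : ∃ A : Finset (Fin f → G), A = univ.filter fun ω : Fin f → G =>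
      cf ω ∧ (∀ c ∈ S.pw.map (ev γ (join f ω (famRho π))), c ∈ P) ∧
      ∀ v ∈ S.vw.map (ev γ (join f ω (famRho π))), v ∈ R := ⟨_, rfl⟩
  have hA1 : Fintype.card G ^ f ≤ K₁ * A.card := by
    subst hcfdef
    rw [hAdef]
    convert avail_fam S f m hav π (by convert hhalf)
  obtain ⟨B1, hB1⟩ : ∃ B : Finset (Fin f → G), B = univ.filter fun ω : Fin f → G =>
      ∃ w ∈ S.vw, ev γ (join f ω (famRho π)) w ∈ U := ⟨_, rfl⟩
  obtain ⟨B2, hB2⟩ : ∃ B : Finset (Fin f → G), B = univ.filter fun ω : Fin f → G =>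
      ∃ w ∈ S.pw, ev γ (join f ω (famRho π)) w ∈ U' := ⟨_, rfl⟩
  have k1 : Fintype.card G * B1.card ≤ S.vw.length * (U.card * Fintype.card G ^ f) := by
    rw [hB1]
    exact card_wordsf hR2 hγ f _ hv (famRho π) U
  have k2 : Fintype.card G * B2.card ≤ S.pw.length * (U'.card * Fintype.card G ^ f) := by
    rw [hB2]
    exact card_wordsf hR2 hγ f _ hp (famRho π) U'
  obtain ⟨ω, hωA, hω1, hω2⟩ : ∃ ω, ω ∈ A ∧ ω ∉ B1 ∧ ω ∉ B2 := by
    by_contra hno
    push Not at hno
    have hsub : A ⊆ B1 ∪ B2 := by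
      intro ω hω
      rw [mem_union]
      by_contra hcon
      push Not at hcon
      exact hcon.2 (hno ω hω hcon.1)
    have hc' : A.card ≤ B1.card + B2.card := (card_le_card hsub).trans (card_union_le _ _)
    have hA0 : 0 < A.card := by
      by_contra h0
      have : A.card = 0 := by omega
      rw [this, mul_zero] at hA1
      omega
    have e1 : Fintype.card G * A.card ≤
        K₁ * (S.vw.length * U.card + S.pw.length * U'.card) * A.card := by
      calc Fintype.card G * A.card ≤ Fintype.card G * (B1.card + B2.card) :=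
            Nat.mul_le_mul_left _ hc'
        _ = Fintype.card G * B1.card + Fintype.card G * B2.card := by ring
        _ ≤ S.vw.length * (U.card * Fintype.card G ^ f) +
            S.pw.length * (U'.card * Fintype.card G ^ f) := add_le_add k1 k2
        _ = (S.vw.length * U.card + S.pw.length * U'.card) * Fintype.card G ^ f := by ring
        _ ≤ (S.vw.length * U.card + S.pw.length * U'.card) * (K₁ * A.card) :=
            Nat.mul_le_mul_left _ hA1
        _ = _ := by ring
    have e2 := Nat.le_of_mul_le_mul_right e1 hA0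
    omega
  have hmem := (mem_filter.1 (hAdef ▸ hωA)).2
  rw [hcfdef] at hmem
  obtain ⟨hcf', hpP, hvR⟩ := hmem
  refine ⟨ω, hcf', fun c hc => ⟨hpP c hc, fun hcu => ?_⟩, fun v hv' => ⟨hvR v hv', fun hvu => ?_⟩⟩
  · obtain ⟨w, hw, rfl⟩ := List.mem_map.1 hc
    exact hω2 (by rw [hB2, mem_filter]; exact ⟨mem_univ _, w, hw, hcu⟩)
  · obtain ⟨w, hw, rfl⟩ := List.mem_map.1 hv'
    exact hω1 (by rw [hB1, mem_filter]; exact ⟨mem_univ _, w, hw, hvu⟩)

/-- the values of a choice as finite sets -/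
theorem choose_sets {γ : G} {R P U U' : Finset G} {ps vs : List G} (h : CF γ ps vs)
    (h1 : ∀ c ∈ ps, c ∈ P ∧ c ∉ U') (h2 : ∀ v ∈ vs, v ∈ R ∧ v ∉ U) :
    ∃ W W' : Finset G, W ⊆ R \ U ∧ W' ⊆ P \ U' ∧ W.val = (vs : Multiset G) ∧
      W'.val = (ps : Multiset G) := by
  refine ⟨⟨(vs : Multiset G), h.2⟩, ⟨(ps : Multiset G), Multiset.nodup_of_le (le_prs γ _) h.1⟩,
    ?_, ?_, rfl, rfl⟩
  · intro v hv
    exact mem_sdiff.2 (h2 v hv)
  · intro v hv
    exact mem_sdiff.2 (h1 v hv)

theorem obOK_rt_gamma {γ : G} {K : ℕ} (h : K * rt γ ≤ Fintype.card G) (ρ : ℕ → G) (b : Bool) :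
    ObOK K γ ρ (Ob.rt [(0, b)]) := by
  show K * rt (ev γ ρ [(0, b)]) ≤ _
  simpa [ev, evL] using h

end choose

/-! ### Leftover indices -/

section idx
variable {G : Type} [Group G] [Fintype G] [DecidableEq G]

theorem step_idx (hR2 : Stmt_R2) (hR3 : Stmt_R3) {K₁ : ℕ} {γ : G} (hγ : γ * γ = 1)
    {R P : Finset G} (hav : ∀ F ∈ covFams γ, Avail γ K₁ R P F) (hn : 100 ≤ Fintype.card G)
    (hrt : 100 * rt γ ≤ Fintype.card G) (i : Idx G) (hi : i.2.2 = 3 ∨ i.2.2 = 4 ∨ i.2.2 = 5)
    (U U' : Finset G) (hU : K₁ * (5 * (U.card + U'.card)) < Fintype.card G) :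
    ∃ W W' : Finset G, W ⊆ R \ U ∧ W' ⊆ P \ U' ∧ MS {i} W.val W'.val := by
  obtain ⟨s, t, len⟩ := i
  simp only at hi
  have hUb : ∀ a b : ℕ, a ≤ 5 → b ≤ 5 → K₁ * (a * U.card + b * U'.card) < Fintype.card G := by
    intro a b ha hb
    refine lt_of_le_of_lt (Nat.mul_le_mul_left _ ?_) hU
    calc a * U.card + b * U'.card ≤ 5 * U.card + 5 * U'.card :=
          add_le_add (Nat.mul_le_mul_right _ ha) (Nat.mul_le_mul_right _ hb)
      _ = _ := by ring
  rcases hi with rfl | rfl | rfl
  · obtain ⟨ω, h1, h2, h3⟩ := choose_fam hR2 hR3 (K₁ := K₁) Walk.li3 2 2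
      (l := [Ob.rt [(0, false)], Ob.rt [(0, false)], Ob.rt [(0, false)]]) (by decide +kernel)
      (by decide +kernel) (by decide +kernel) hγ (hav _ (by simp [covFams])) ![s, t] 100
      (by norm_num) (by decide +kernel) hn (by
        intro o ho
        simp only [List.mem_cons, List.not_mem_nil, or_false, or_self] at ho
        subst ho
        exact obOK_rt_gamma hrt _ _) U U' (hUb _ _ (by decide) (by decide))
    obtain ⟨W, W', hW, hW', hWv, hWv'⟩ := choose_sets h1 h2 h3
    refine ⟨W, W', hW, hW', ?_⟩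
    rw [hWv, hWv']
    have h4 := MS.single s t [ω 0, ω 1]
    have e1 : Walk.li3.vw.map (ev γ (join 2 ω (famRho ![s, t]))) = [ω 0, ω 1] := by
      simp [Walk.li3, Walk.X, Walk.i, Wd.inv, ev, evL, join, famRho]
    have e2 : Walk.li3.pw.map (ev γ (join 2 ω (famRho ![s, t]))) =
        [s⁻¹ * ω 0, (ω 0)⁻¹ * ω 1, (ω 1)⁻¹ * t] := by
      simp [Walk.li3, Walk.X, Walk.i, Wd.inv, ev, evL, join, famRho]
    rw [e1, e2]
    exact h4
  · obtain ⟨ω, h1, h2, h3⟩ := choose_fam hR2 hR3 (K₁ := K₁) Walk.li4 3 2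
      (l := [Ob.rt [(0, false)], Ob.rt [(0, false)], Ob.rt [(0, false)], Ob.rt [(0, false)]])
      (by decide +kernel)
      (by decide +kernel) (by decide +kernel) hγ (hav _ (by simp [covFams])) ![s, t] 100
      (by norm_num) (by decide +kernel) hn (by
        intro o ho
        simp only [List.mem_cons, List.not_mem_nil, or_false, or_self] at ho
        subst ho
        exact obOK_rt_gamma hrt _ _) U U' (hUb _ _ (by decide) (by decide))
    obtain ⟨W, W', hW, hW', hWv, hWv'⟩ := choose_sets h1 h2 h3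
    refine ⟨W, W', hW, hW', ?_⟩
    rw [hWv, hWv']
    have h4 := MS.single s t [ω 0, ω 1, ω 2]
    have e1 : Walk.li4.vw.map (ev γ (join 3 ω (famRho ![s, t]))) = [ω 0, ω 1, ω 2] := by
      simp [Walk.li4, Walk.X, Walk.i, Wd.inv, ev, evL, join, famRho]
    have e2 : Walk.li4.pw.map (ev γ (join 3 ω (famRho ![s, t]))) =
        [s⁻¹ * ω 0, (ω 0)⁻¹ * ω 1, (ω 1)⁻¹ * ω 2, (ω 2)⁻¹ * t] := by
      simp [Walk.li4, Walk.X, Walk.i, Wd.inv, ev, evL, join, famRho]
    rw [e1, e2]
    exact h4
  · obtain ⟨ω, h1, h2, h3⟩ := choose_fam hR2 hR3 (K₁ := K₁) Walk.li5 4 2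
      (l := [Ob.rt [(0, false)], Ob.rt [(0, false)], Ob.rt [(0, false)], Ob.rt [(0, false)],
        Ob.rt [(0, false)]])
      (by decide +kernel)
      (by decide +kernel) (by decide +kernel) hγ (hav _ (by simp [covFams])) ![s, t] 100
      (by norm_num) (by decide +kernel) hn (by
        intro o ho
        simp only [List.mem_cons, List.not_mem_nil, or_false, or_self] at ho
        subst ho
        exact obOK_rt_gamma hrt _ _) U U' (hUb _ _ (by decide) (by decide))
    obtain ⟨W, W', hW, hW', hWv, hWv'⟩ := choose_sets h1 h2 h3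
    refine ⟨W, W', hW, hW', ?_⟩
    rw [hWv, hWv']
    have h4 := MS.single s t [ω 0, ω 1, ω 2, ω 3]
    have e1 : Walk.li5.vw.map (ev γ (join 4 ω (famRho ![s, t]))) = [ω 0, ω 1, ω 2, ω 3] := by
      simp [Walk.li5, Walk.X, Walk.i, Wd.inv, ev, evL, join, famRho]
    have e2 : Walk.li5.pw.map (ev γ (join 4 ω (famRho ![s, t]))) =
        [s⁻¹ * ω 0, (ω 0)⁻¹ * ω 1, (ω 1)⁻¹ * ω 2, (ω 2)⁻¹ * ω 3, (ω 3)⁻¹ * t] := by
      simp [Walk.li5, Walk.X, Walk.i, Wd.inv, ev, evL, join, famRho]
    rw [e1, e2]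
    exact h4

/-- all leftover indices -/
theorem phase_idx (hR2 : Stmt_R2) (hR3 : Stmt_R3) {K₁ : ℕ} {γ : G} (hγ : γ * γ = 1)
    {R P : Finset G} (hav : ∀ F ∈ covFams γ, Avail γ K₁ R P F) (hn : 100 ≤ Fintype.card G)
    (hrt : 100 * rt γ ≤ Fintype.card G) (LI : Multiset (Idx G))
    (hLI : ∀ i ∈ LI, i.2.2 = 3 ∨ i.2.2 = 4 ∨ i.2.2 = 5)
    (hc : K₁ * (5 * (9 * Multiset.card LI)) < Fintype.card G) :
    ∃ U U' : Finset G, U ⊆ R ∧ U' ⊆ P ∧ MS LI U.val U'.val := by
  induction LI using Multiset.induction_on with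
  | empty => exact ⟨∅, ∅, empty_subset _, empty_subset _, MS.zero⟩
  | cons i LI ih =>
    have hc' : K₁ * (5 * (9 * Multiset.card LI)) < Fintype.card G := by
      refine lt_of_le_of_lt (Nat.mul_le_mul_left _ ?_) hc
      rw [Multiset.card_cons]
      omega
    obtain ⟨U, U', hU, hU', hMS⟩ := ih (fun j hj => hLI j (Multiset.mem_cons_of_mem hj)) hc'
    have hsz : U.card + U'.card ≤ 9 * Multiset.card LI := by
      have h1 : U.card = (LI.map fun i => i.2.2 - 1).sum := hMS.card_V
      have h2 : U'.card = (LI.map fun i => i.2.2).sum := hMS.card_C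
      have h3 : (LI.map fun i => i.2.2 - 1).sum ≤ Multiset.card LI * 4 := by
        have := Multiset.sum_le_card_nsmul (LI.map fun i => i.2.2 - 1) 4 (by
          intro x hx
          obtain ⟨j, hj, rfl⟩ := Multiset.mem_map.1 hx
          rcases hLI j (Multiset.mem_cons_of_mem hj) with h | h | h <;> omega)
        simpa using this
      have h4 : (LI.map fun i => i.2.2).sum ≤ Multiset.card LI * 5 := by
        have := Multiset.sum_le_card_nsmul (LI.map fun i => i.2.2) 5 (by
          intro x hx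
          obtain ⟨j, hj, rfl⟩ := Multiset.mem_map.1 hx
          rcases hLI j (Multiset.mem_cons_of_mem hj) with h | h | h <;> omega)
        simpa using this
      omega
    obtain ⟨W, W', hW, hW', hMS'⟩ := step_idx hR2 hR3 hγ hav hn hrt i
      (hLI i (Multiset.mem_cons_self _ _)) U U'
      (lt_of_le_of_lt (Nat.mul_le_mul_left _ (Nat.mul_le_mul_left _ hsz)) hc')
    have hd : Disjoint W U := Finset.disjoint_left.2 fun x hx => (mem_sdiff.1 (hW hx)).2
    have hd' : Disjoint W' U' := Finset.disjoint_left.2 fun x hx => (mem_sdiff.1 (hW' hx)).2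
    refine ⟨W.disjUnion U hd, W'.disjUnion U' hd', ?_, ?_, ?_⟩
    · intro x hx
      rcases mem_disjUnion.1 hx with h | h
      · exact (mem_sdiff.1 (hW h)).1
      · exact hU h
    · intro x hx
      rcases mem_disjUnion.1 hx with h | h
      · exact (mem_sdiff.1 (hW' h)).1
      · exact hU' h
    · rw [disjUnion_val, disjUnion_val, ← Multiset.singleton_add]
      exact hMS'.add hMS

end idx

end Pool.OM.h64
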